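import Pool.Agent.Q181.BD.Stm3

set_option autoImplicit false

/-!
# Blocks (a copy of `Pool.Agent.Q150.BD.Blk` by helper150 without `convert`)
-/

namespace Pool.Agent.Q181.BD.Blk2

open Pool.Agent.Q181.BD TH57.Thr

section norm

variable {G : Type} [Group G] {ι κ μ ν : Type} [Fintype ι] [Fintype κ] [Fintype μ] [Fintype ν]

theorem normSq_comp_le (g : ν → κ) (hg : Function.Injective g) (y : κ → MonoidAlgebra ℝ G) :
    normSq (fun j => y (g j)) ≤ normSq y := by
  classical
  unfold normSq
  rw [← Finset.sum_image (s := Finset.univ) (g := g)
    (f := fun k => ∑ a ∈ (y k).coeff.support, (y k).coeff a ^ 2) hg.injOn]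
  exact Finset.sum_le_sum_of_subset_of_nonneg (Finset.subset_univ _)
    fun _ _ _ => Finset.sum_nonneg fun _ _ => sq_nonneg _

theorem normSq_extend (f : μ → ι) (hf : Function.Injective f) (x : μ → MonoidAlgebra ℝ G) :
    normSq (Function.extend f x 0) = normSq x := by
  classical
  unfold normSq
  have h1 : ∀ m, Function.extend f x 0 (f m) = x m := fun m => hf.extend_apply x 0 m
  have h2 : ∑ m, ∑ a ∈ (x m).coeff.support, (x m).coeff a ^ 2 =
      ∑ m, ∑ a ∈ (Function.extend f x 0 (f m)).coeff.support,
        (Function.extend f x 0 (f m)).coeff a ^ 2 := by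
    simp only [h1]
  rw [h2, ← Finset.sum_image (s := Finset.univ) (g := f)
    (f := fun k => ∑ a ∈ (Function.extend f x 0 k).coeff.support,
      (Function.extend f x 0 k).coeff a ^ 2) hf.injOn]
  symm
  apply Finset.sum_subset (Finset.subset_univ _)
  intro i _ hi
  have h3 : Function.extend f x 0 i = 0 := by
    apply Function.extend_apply'
    rintro ⟨m, rfl⟩
    exact hi (Finset.mem_image_of_mem f (Finset.mem_univ m))
  rw [h3]
  simp

theorem normLE_submatrix (f : μ → ι) (g : ν → κ) (hf : Function.Injective f)
    (hg : Function.Injective g) (A : Matrix ι κ (MonoidAlgebra ℤ G)) (c : ℝ) (hA : NormLE A c) :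
    NormLE (A.submatrix f g) c := by
  classical
  intro x
  have h1 : Matrix.vecMul x (toReal (A.submatrix f g)) =
      fun j => (Matrix.vecMul (Function.extend f x 0) (toReal A)) (g j) := by
    funext j
    simp only [Matrix.vecMul, dotProduct]
    have h2 : ∀ m, x m * toReal (A.submatrix f g) m j =
        (fun i => Function.extend f x 0 i * toReal A i (g j)) (f m) := by
      intro m
      simp only [hf.extend_apply]
      rfl
    rw [Finset.sum_congr rfl fun m _ => h2 m, ← Finset.sum_image (s := Finset.univ) (g := f)
      (f := fun i => Function.extend f x 0 i * toReal A i (g j)) hf.injOn]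
    apply Finset.sum_subset (Finset.subset_univ _)
    intro i _ hi
    have h3 : Function.extend f x 0 i = 0 := by
      apply Function.extend_apply'
      rintro ⟨m, rfl⟩
      exact hi (Finset.mem_image_of_mem f (Finset.mem_univ m))
    rw [h3, zero_mul]
  rw [h1]
  refine (normSq_comp_le g hg _).trans ((hA _).trans ?_)
  rw [normSq_extend f hf]

end norm

section bin

variable {G : Type} [CommGroup G]

theorem Bin_mul {f g : MonoidAlgebra ℤ G} (hf : Bin f) (hg : Bin g) : Bin (f * g) := by
  obtain ⟨s, rfl⟩ := hf
  obtain ⟨t, rfl⟩ := hg
  exact ⟨s + t, by rw [Multiset.map_add, Multiset.prod_add]⟩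

theorem Bin_zero : Bin (0 : MonoidAlgebra ℤ G) :=
  ⟨{((1, 0), (1, 0))}, by simp⟩

theorem Bin_neg {f : MonoidAlgebra ℤ G} (hf : Bin f) : Bin (-f) := by
  have h1 : Bin (-1 : MonoidAlgebra ℤ G) := by
    refine ⟨{((1, -1), (1, 0))}, ?_⟩
    simp [MonoidAlgebra.one_def]
  have := Bin_mul h1 hf
  rwa [neg_one_mul] at this

end bin

theorem t_blk : S_blk := by
  intro G _ c hirr
  have key : ∀ (n : ℕ) (κ : Type) [Fintype κ] [DecidableEq κ]
      (A : Matrix κ κ (MonoidAlgebra ℤ G)), Fintype.card κ = n → NormLE A c → Bin A.det := by
    intro n
    induction n using Nat.strong_induction_on with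
    | _ n ih =>
      intro κ _ _ A hn hA
      by_cases hI : Irr A
      · exact hirr κ A hA hI
      unfold Irr at hI
      push Not at hI
      obtain ⟨I, J, hIJ, h1, h2⟩ := hI
      by_cases hcard : I.card = J.card
      swap
      · -- the determinant is zero
        have hdet : A.det = 0 := by
          rw [← Matrix.det_transpose, Matrix.det_apply]
          apply Finset.sum_eq_zero
          intro σ _
          have h3 : ∃ i, A i (σ i) = 0 := by
            by_contra hcon
            push Not at hcon
            apply hcard
            rw [← Finset.card_map σ.toEmbedding]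
            congr 1
            ext j
            rw [Finset.mem_map_equiv]
            have := hIJ _ _ (hcon (σ.symm j))
            rw [Equiv.apply_symm_apply] at this
            exact this
          obtain ⟨i, hi⟩ := h3
          rw [Finset.prod_eq_zero (Finset.mem_univ i) (by rw [Matrix.transpose_apply]; exact hi),
            smul_zero]
        rw [hdet]
        exact Bin_zero
      · -- blocks
        set e : Equiv.Perm κ := (Finset.equivOfCardEq hcard).extendSubtype with he
        have he1 : ∀ x, x ∈ I → e x ∈ J := fun x hx => Equiv.extendSubtype_mem _ x hx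
        have he2 : ∀ x, x ∉ I → e x ∉ J := fun x hx => Equiv.extendSubtype_not_mem _ x hx
        have hM : ∀ i j, (A.submatrix id e) i j ≠ 0 → (i ∈ I ↔ j ∈ I) := by
          intro i j hij
          rw [hIJ i (e j) hij]
          exact ⟨fun h => by_contra fun hn => he2 j hn h, he1 j⟩
        have hdet : A.det = (Equiv.Perm.sign e : ℤ) • (A.submatrix id e).det := by
          rw [Matrix.det_permute']
          rcases Int.units_eq_one_or (Equiv.Perm.sign e) with h | h <;> rw [h] <;> simp
        have htwo := Matrix.twoBlockTriangular_det (A.submatrix id e) (fun i => i ∈ I) (by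
          intro i hi j hj
          by_contra hne
          exact hi ((hM i j hne).2 hj))
        have hI0 : I.Nonempty := by
          rw [Finset.nonempty_iff_ne_empty]
          intro h0
          apply Finset.nonempty_iff_ne_empty.1 (h1 h0)
          rw [← Finset.card_eq_zero, ← hcard, h0, Finset.card_empty]
        have hI1 : I ≠ Finset.univ := by
          intro h0
          apply h2 h0
          rw [← Finset.card_eq_iff_eq_univ, ← hcard, h0, Finset.card_univ]
        obtain ⟨i0, hi0⟩ := hI0
        obtain ⟨i1, hi1⟩ : ∃ i1, i1 ∉ I := by
          by_contra hcon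
          push Not at hcon
          exact hI1 (Finset.eq_univ_iff_forall.2 hcon)
        have b1 : ∀ (f : Fintype {i // i ∈ I}) (d : DecidableEq {i // i ∈ I}),
            Bin (@Matrix.det _ d f _ _
              ((A.submatrix id e).toSquareBlockProp (fun i => i ∈ I))) := by
          intro f d
          refine ih (Fintype.card {i // i ∈ I}) ?_ _ _ rfl ?_
          · rw [← hn]
            exact Fintype.card_subtype_lt hi1
          · exact normLE_submatrix (fun i : {i // i ∈ I} => (i : κ))
              (fun j : {i // i ∈ I} => e j) Subtype.val_injective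
              (e.injective.comp Subtype.val_injective) A c hA
        have b2 : ∀ (f : Fintype {i // ¬ i ∈ I}) (d : DecidableEq {i // ¬ i ∈ I}),
            Bin (@Matrix.det _ d f _ _
              ((A.submatrix id e).toSquareBlockProp (fun i => ¬ i ∈ I))) := by
          intro f d
          refine ih (Fintype.card {i // ¬ i ∈ I}) ?_ _ _ rfl ?_
          · rw [← hn]
            exact Fintype.card_subtype_lt (x := i0) (not_not.2 hi0)
          · exact normLE_submatrix (fun i : {i // ¬ i ∈ I} => (i : κ))
              (fun j : {i // ¬ i ∈ I} => e j) Subtype.val_injective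
              (e.injective.comp Subtype.val_injective) A c hA
        rw [hdet, htwo]
        rcases Int.units_eq_one_or (Equiv.Perm.sign e) with h | h
        · rw [h]
          simp only [Units.val_one, one_smul]
          exact Bin_mul (b1 _ _) (b2 _ _)
        · rw [h]
          simp only [Units.val_neg, Units.val_one, neg_smul, one_smul]
          exact Bin_neg (Bin_mul (b1 _ _) (b2 _ _))
  intro κ _ _ A hA
  exact key _ κ A rfl hA

end Pool.Agent.Q181.BD.Blk2
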