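import Pool.Agent.Q181.BD.Fin

set_option autoImplicit false

/-! Norms of matrices over `ℤ[t, t⁻¹]` and values on the unit circle. -/

namespace Pool.Agent.Q181.BD

open TH57.Thr Matrix Polynomial

/-- evaluation at a point `z ≠ 0` -/
noncomputable def ev (z : ℂˣ) : MonoidAlgebra ℝ (Multiplicative ℤ) →ₐ[ℝ] ℂ :=
  MonoidAlgebra.lift ℝ ℂ (Multiplicative ℤ) ((Units.coeHom ℂ).comp (zpowersHom ℂˣ z))

theorem ev_single (z : ℂˣ) (m : ℤ) (a : ℝ) :
    ev z (MonoidAlgebra.single (Multiplicative.ofAdd m) a) = a * (z : ℂ) ^ m := by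
  unfold ev
  rw [MonoidAlgebra.lift_single]
  simp [zpowersHom]

/-- the interval `[-M, M]` -/
noncomputable def Sy (M : ℕ) : Finset (Multiplicative ℤ) :=
  (Finset.Icc (-(M : ℤ)) M).map Multiplicative.ofAdd.toEmbedding

theorem mem_Sy (M : ℕ) (m : ℤ) : Multiplicative.ofAdd m ∈ Sy M ↔ -(M : ℤ) ≤ m ∧ m ≤ M := by
  simp [Sy]

theorem ev_eq (z : ℂˣ) (F : MonoidAlgebra ℝ (Multiplicative ℤ)) (M : ℕ)
    (hF : F.coeff.support ⊆ Sy M) :
    ev z F = ∑ m ∈ Finset.Icc (-(M : ℤ)) M, (F.coeff (Multiplicative.ofAdd m) : ℂ) * (z : ℂ) ^ m := by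
  unfold ev
  rw [MonoidAlgebra.lift_apply, Finsupp.sum_of_support_subset _ hF (fun a b => b • ((Units.coeHom ℂ).comp ((zpowersHom ℂˣ) z)) a)
      (fun _ _ => zero_smul _ _), Sy, Finset.sum_map]
  refine Finset.sum_congr rfl fun m _ => ?_
  simp [zpowersHom]

theorem sq_eq (F : MonoidAlgebra ℝ (Multiplicative ℤ)) (M : ℕ) (hF : F.coeff.support ⊆ Sy M) :
    ∑ g ∈ F.coeff.support, F.coeff g ^ 2 =
      ∑ m ∈ Finset.Icc (-(M : ℤ)) M, F.coeff (Multiplicative.ofAdd m) ^ 2 := by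
  rw [sum_sq_of_support_subset F (Sy M) hF, Sy, Finset.sum_map]
  rfl

theorem exists_Sy {ι : Type} [Fintype ι] (x : ι → MonoidAlgebra ℝ (Multiplicative ℤ)) :
    ∃ M : ℕ, ∀ M', M ≤ M' → ∀ i, (x i).coeff.support ⊆ Sy M' := by
  classical
  refine ⟨∑ i, ∑ g ∈ (x i).coeff.support, (Multiplicative.toAdd g).natAbs, fun M' hM i g hg => ?_⟩
  have h1 : (Multiplicative.toAdd g).natAbs ≤
      ∑ g ∈ (x i).coeff.support, (Multiplicative.toAdd g).natAbs :=
    Finset.single_le_sum (f := fun g => (Multiplicative.toAdd g).natAbs) (fun _ _ => Nat.zero_le _) hg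
  have h2 : ∑ g ∈ (x i).coeff.support, (Multiplicative.toAdd g).natAbs ≤
      ∑ i, ∑ g ∈ (x i).coeff.support, (Multiplicative.toAdd g).natAbs :=
    Finset.single_le_sum (f := fun i => ∑ g ∈ (x i).coeff.support, (Multiplicative.toAdd g).natAbs)
      (fun _ _ => Nat.zero_le _) (Finset.mem_univ i)
  have h3 : Multiplicative.ofAdd (Multiplicative.toAdd g) ∈ Sy M' := by
    rw [mem_Sy]
    omega
  simpa using h3

/-- the roots of unity of order `2 M + 1` -/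
noncomputable def rt (M k : ℕ) : ℂˣ :=
  Units.mk0 (Complex.exp (2 * Real.pi * Complex.I / ((2 * M + 1 : ℕ) : ℂ)) ^ k)
    (pow_ne_zero _ (Complex.exp_ne_zero _))

theorem rt_norm (M k : ℕ) : ‖((rt M k : ℂˣ) : ℂ)‖ = 1 := by
  have h := Complex.isPrimitiveRoot_exp (2 * M + 1) (by omega)
  have h1 : ‖Complex.exp (2 * Real.pi * Complex.I / ((2 * M + 1 : ℕ) : ℂ))‖ = 1 :=
    h.norm'_eq_one (by omega)
  simp only [rt, Units.val_mk0, norm_pow, h1, one_pow]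

theorem rt_sum (M : ℕ) (j : ℤ) (hj : |j| ≤ 2 * M) :
    ∑ k ∈ Finset.range (2 * M + 1), ((rt M k : ℂˣ) : ℂ) ^ j = if j = 0 then ((2 * M + 1 : ℕ) : ℂ) else 0 := by
  set ω := Complex.exp (2 * Real.pi * Complex.I / ((2 * M + 1 : ℕ) : ℂ)) with hω
  have h : IsPrimitiveRoot ω (2 * M + 1) := Complex.isPrimitiveRoot_exp (2 * M + 1) (by omega)
  have h1 : ∀ k, ((rt M k : ℂˣ) : ℂ) ^ j = (ω ^ j) ^ k := by
    intro k
    simp only [rt, Units.val_mk0]
    rw [← hω, ← zpow_natCast, ← _root_.zpow_mul, ← zpow_natCast, ← _root_.zpow_mul, mul_comm]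
  rw [Finset.sum_congr rfl fun k _ => h1 k]
  split_ifs with h0
  · subst h0
    simp
  · have hne : ω ^ j ≠ 1 := by
      intro he
      rw [h.zpow_eq_one_iff_dvd] at he
      obtain ⟨t, ht⟩ := he
      have h2 : |j| = (2 * M + 1) * |t| := by
        rw [ht, abs_mul]
        congr 1
      have h3 : t ≠ 0 := by
        rintro rfl
        exact h0 (by simpa using ht)
      have h4 : 1 ≤ |t| := Int.one_le_abs h3
      nlinarith
    have h2 := geom_sum_mul (ω ^ j) (2 * M + 1)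
    have h3 : (ω ^ j) ^ (2 * M + 1) = 1 := by
      rw [← zpow_natCast, ← _root_.zpow_mul, mul_comm, _root_.zpow_mul, zpow_natCast, h.pow_eq_one,
        _root_.one_zpow]
    rw [h3, sub_self] at h2
    exact (mul_eq_zero.1 h2).resolve_right (sub_ne_zero.2 hne)

/-- Parseval's identity for the roots of unity -/
theorem pars (M : ℕ) (f : ℤ → ℝ) :
    ∑ k ∈ Finset.range (2 * M + 1),
      ‖∑ m ∈ Finset.Icc (-(M : ℤ)) M, (f m : ℂ) * ((rt M k : ℂˣ) : ℂ) ^ m‖ ^ 2 =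
      (2 * M + 1 : ℕ) * ∑ m ∈ Finset.Icc (-(M : ℤ)) M, f m ^ 2 := by
  have key : ∀ k, ((‖∑ m ∈ Finset.Icc (-(M : ℤ)) M, (f m : ℂ) * ((rt M k : ℂˣ) : ℂ) ^ m‖ ^ 2 : ℝ) : ℂ) =
      ∑ m ∈ Finset.Icc (-(M : ℤ)) M, ∑ m' ∈ Finset.Icc (-(M : ℤ)) M,
        (f m * f m' : ℂ) * ((rt M k : ℂˣ) : ℂ) ^ (m - m') := by
    intro k
    have hc : (starRingEnd ℂ) ((rt M k : ℂˣ) : ℂ) = (((rt M k : ℂˣ) : ℂ))⁻¹ := by
      rw [Complex.inv_def, Complex.normSq_eq_norm_sq, rt_norm]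
      simp
    rw [← Complex.normSq_eq_norm_sq, ← Complex.mul_conj, map_sum, Finset.sum_mul_sum]
    refine Finset.sum_congr rfl fun m _ => Finset.sum_congr rfl fun m' _ => ?_
    rw [map_mul, Complex.conj_ofReal, map_zpow₀, hc, zpow_sub₀ (Units.ne_zero _), _root_.inv_zpow]
    ring
  have h1 : ((∑ k ∈ Finset.range (2 * M + 1),
      ‖∑ m ∈ Finset.Icc (-(M : ℤ)) M, (f m : ℂ) * ((rt M k : ℂˣ) : ℂ) ^ m‖ ^ 2 : ℝ) : ℂ) =
      (((2 * M + 1 : ℕ) * ∑ m ∈ Finset.Icc (-(M : ℤ)) M, f m ^ 2 : ℝ) : ℂ) := by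
    rw [Complex.ofReal_sum, Finset.sum_congr rfl fun k _ => key k, Finset.sum_comm]
    rw [Finset.sum_congr rfl fun m (_ : m ∈ Finset.Icc (-(M : ℤ)) M) => Finset.sum_comm]
    have h2 : ∀ m ∈ Finset.Icc (-(M : ℤ)) M, ∑ m' ∈ Finset.Icc (-(M : ℤ)) M,
        ∑ k ∈ Finset.range (2 * M + 1), (f m * f m' : ℂ) * ((rt M k : ℂˣ) : ℂ) ^ (m - m') =
        ((2 * M + 1 : ℕ) : ℂ) * (f m : ℂ) ^ 2 := by
      intro m hm
      rw [Finset.sum_eq_single m]
      · rw [← Finset.mul_sum, rt_sum M (m - m) (by simp), if_pos (sub_self m)]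
        ring
      · intro m' hm' hne
        rw [Finset.mem_Icc] at hm hm'
        rw [← Finset.mul_sum, rt_sum M (m - m') (by rw [abs_le]; omega),
          if_neg (by omega), mul_zero]
      · intro h; exact absurd hm h
    rw [Finset.sum_congr rfl h2, ← Finset.mul_sum]
    push_cast
    ring
  exact_mod_cast h1

/-- Parseval's identity for vectors -/
theorem pars_vec {ι : Type} [Fintype ι] (x : ι → MonoidAlgebra ℝ (Multiplicative ℤ)) (M : ℕ)
    (hM : ∀ i, (x i).coeff.support ⊆ Sy M) :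
    ∑ k ∈ Finset.range (2 * M + 1), ∑ i, ‖ev (rt M k) (x i)‖ ^ 2 =
      (2 * M + 1 : ℕ) * normSq x := by
  rw [Finset.sum_comm, normSq, Finset.mul_sum]
  refine Finset.sum_congr rfl fun i _ => ?_
  rw [sq_eq (x i) M (hM i), ← pars M fun m => (x i).coeff (Multiplicative.ofAdd m)]
  refine Finset.sum_congr rfl fun k _ => ?_
  rw [ev_eq _ _ M (hM i)]

/-- the value of an integer polynomial -/
theorem ev_lau (z : ℂˣ) (a : ℤ[X]) :
    ev z (MonoidAlgebra.mapRingHom (Multiplicative ℤ) (Int.castRingHom ℝ) (lau a)) =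
      a.eval₂ (Int.castRingHom ℂ) (z : ℂ) := by
  have h : ((ev z : MonoidAlgebra ℝ (Multiplicative ℤ) →+* ℂ).comp
      (MonoidAlgebra.mapRingHom (Multiplicative ℤ) (Int.castRingHom ℝ))).comp lau =
      eval₂RingHom (Int.castRingHom ℂ) (z : ℂ) := by
    refine Polynomial.ringHom_ext' (RingHom.ext_int _ _) ?_
    rw [RingHom.comp_apply, RingHom.comp_apply]
    have h1 : lau X = MonoidAlgebra.single (Multiplicative.ofAdd (1 : ℤ)) (1 : ℤ) := by
      simp [lau]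
    rw [h1, MonoidAlgebra.mapRingHom_single]
    simp only [map_one, coe_eval₂RingHom, eval₂_X]
    change ev z (MonoidAlgebra.single (Multiplicative.ofAdd (1 : ℤ)) (1 : ℝ)) = _
    rw [ev_single]
    simp
  exact DFunLike.congr_fun h a

/-- the value of a matrix of integer polynomials at a complex number -/
noncomputable def at' {ι κ : Type} (z : ℂ) (A : Matrix ι κ ℤ[X]) : Matrix ι κ ℂ :=
  A.map fun a => a.eval₂ (Int.castRingHom ℂ) z

/-- the norm of the values on the unit circle is at most `|c|` -/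
def CNorm {ι κ : Type} [Fintype ι] [Fintype κ] (A : Matrix ι κ ℤ[X]) (c : ℝ) : Prop :=
  ∀ z : ℂ, ‖z‖ = 1 → ∀ v : ι → ℂ, ∑ j, ‖(v ᵥ* at' z A) j‖ ^ 2 ≤ c ^ 2 * ∑ i, ‖v i‖ ^ 2

theorem normLE_of_cnorm {ι κ : Type} [Fintype ι] [Fintype κ] (A : Matrix ι κ ℤ[X]) (c : ℝ)
    (hA : CNorm A c) : NormLE (A.map lau) c := by
  intro x
  obtain ⟨M₁, hM₁⟩ := exists_Sy x
  obtain ⟨M₂, hM₂⟩ := exists_Sy (x ᵥ* toReal (A.map lau))
  set M := max M₁ M₂ with hM
  have h1 := pars_vec x M (hM₁ M (le_max_left _ _))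
  have h2 := pars_vec (x ᵥ* toReal (A.map lau)) M (hM₂ M (le_max_right _ _))
  have h3 : ∀ k, ∑ j, ‖ev (rt M k) ((x ᵥ* toReal (A.map lau)) j)‖ ^ 2 ≤
      c ^ 2 * ∑ i, ‖ev (rt M k) (x i)‖ ^ 2 := by
    intro k
    have h := hA (rt M k : ℂˣ) (rt_norm M k) fun i => ev (rt M k) (x i)
    refine le_of_eq_of_le (Finset.sum_congr rfl fun j _ => ?_) h
    congr 2
    simp only [vecMul, dotProduct, map_sum, map_mul, toReal, at', Matrix.map_apply, ev_lau]
  have h4 : ((2 * M + 1 : ℕ) : ℝ) * normSq (x ᵥ* toReal (A.map lau)) ≤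
      ((2 * M + 1 : ℕ) : ℝ) * (c ^ 2 * normSq x) := by
    rw [← h2]
    calc _ ≤ ∑ k ∈ Finset.range (2 * M + 1), c ^ 2 * ∑ i, ‖ev (rt M k) (x i)‖ ^ 2 :=
          Finset.sum_le_sum fun k _ => h3 k
      _ = _ := by rw [← Finset.mul_sum, h1]; ring
  exact le_of_mul_le_mul_left h4 (by positivity)

end Pool.Agent.Q181.BD
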