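import Pool.Agent.Q181.BD.Circ
import Pool.Agent.Q181.LW.Base

set_option autoImplicit false

/-! Norms of matrices over `ℤ[t, t⁻¹]` and values on the unit circle: the converse. -/

namespace Pool.Agent.Q181.BD

open TH57.Thr Matrix Polynomial

/-- real polynomials as Laurent polynomials -/
noncomputable def rl : Polynomial ℝ →+* MonoidAlgebra ℝ (Multiplicative ℤ) :=
  Polynomial.eval₂RingHom (algebraMap ℝ _)
    (MonoidAlgebra.single (Multiplicative.ofAdd (1 : ℤ)) (1 : ℝ))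

theorem rl_mono (a : ℝ) (n : ℕ) :
    rl (C a * X ^ n) = MonoidAlgebra.single (Multiplicative.ofAdd (n : ℤ)) a := by
  unfold rl
  rw [coe_eval₂RingHom, eval₂_mul, eval₂_C, eval₂_pow, eval₂_X, MonoidAlgebra.single_pow, one_pow]
  have h1 : (algebraMap ℝ (MonoidAlgebra ℝ (Multiplicative ℤ))) a =
      MonoidAlgebra.single 1 a := rfl
  rw [h1, MonoidAlgebra.single_mul_single, mul_one, one_mul, ← ofAdd_nsmul]
  simp

theorem rl_coeff (P : ℝ[X]) (n : ℕ) :
    (rl P).coeff (Multiplicative.ofAdd (n : ℤ)) = P.coeff n := by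
  induction P using Polynomial.induction_on' with
  | add p q hp hq =>
    rw [map_add, MonoidAlgebra.coeff_add, Finsupp.add_apply, hp, hq, coeff_add]
  | monomial m a =>
    rw [← C_mul_X_pow_eq_monomial, rl_mono, MonoidAlgebra.coeff_single, coeff_C_mul_X_pow]
    rw [Finsupp.single_apply]
    by_cases h : m = n
    · subst h; simp
    · rw [if_neg (fun h2 => h (by simpa using h2)), if_neg (fun h2 => h h2.symm)]

theorem rl_map (a : ℤ[X]) : rl (a.map (Int.castRingHom ℝ)) =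
    MonoidAlgebra.mapRingHom (Multiplicative ℤ) (Int.castRingHom ℝ) (lau a) := by
  have h : rl.comp (Polynomial.mapRingHom (Int.castRingHom ℝ)) =
      (MonoidAlgebra.mapRingHom (Multiplicative ℤ) (Int.castRingHom ℝ)).comp lau := by
    refine Polynomial.ringHom_ext' (RingHom.ext_int _ _) ?_
    rw [RingHom.comp_apply, RingHom.comp_apply]
    have h1 : lau X = MonoidAlgebra.single (Multiplicative.ofAdd (1 : ℤ)) (1 : ℤ) := by
      simp [lau]
    rw [h1, MonoidAlgebra.mapRingHom_single]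
    simp [rl]
  exact DFunLike.congr_fun h a

/-- the polynomial with the coefficients `f j`, `j < N` -/
noncomputable def pr (N : ℕ) (f : ℕ → ℝ) : ℝ[X] := ∑ j ∈ Finset.range N, C (f j) * X ^ j

theorem pr_coeff (N : ℕ) (f : ℕ → ℝ) (n : ℕ) : (pr N f).coeff n = if n < N then f n else 0 := by
  unfold pr
  rw [finset_sum_coeff]
  simp only [coeff_C_mul_X_pow]
  rw [Finset.sum_ite_eq]
  simp

theorem pr_support (N : ℕ) (f : ℕ → ℝ) :
    ∑ g ∈ (rl (pr N f)).coeff.support, (rl (pr N f)).coeff g ^ 2 = ∑ j ∈ Finset.range N, f j ^ 2 := by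
  classical
  have h1 : (rl (pr N f)).coeff.support ⊆
      (Finset.range N).image (fun n : ℕ => Multiplicative.ofAdd (n : ℤ)) := by
    have h2 : rl (pr N f) = ∑ j ∈ Finset.range N,
        MonoidAlgebra.single (Multiplicative.ofAdd (j : ℤ)) (f j) := by
      unfold pr
      rw [map_sum]
      exact Finset.sum_congr rfl fun j _ => rl_mono _ _
    intro g hg
    rw [Finsupp.mem_support_iff, h2] at hg
    by_contra hn
    apply hg
    rw [MonoidAlgebra.coeff_sum, Finsupp.finset_sum_apply]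
    refine Finset.sum_eq_zero fun j hj => ?_
    rw [MonoidAlgebra.coeff_single, Finsupp.single_apply, if_neg]
    intro he
    exact hn (Finset.mem_image.2 ⟨j, hj, he⟩)
  rw [sum_sq_of_support_subset _ _ h1, Finset.sum_image]
  · refine Finset.sum_congr rfl fun j hj => ?_
    rw [rl_coeff, pr_coeff, if_pos (Finset.mem_range.1 hj)]
  · intro a _ b _ hab
    simpa using hab

theorem sum_le_n1 (P : ℝ[X]) (D N : ℕ) :
    ∑ l ∈ Finset.Ico D N, P.coeff l ^ 2 ≤
      ∑ g ∈ (rl P).coeff.support, (rl P).coeff g ^ 2 := by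
  classical
  refine le_trans (le_of_eq ?_)
    (sum_sq_le (rl P) ((Finset.Ico D N).image (fun n : ℕ => Multiplicative.ofAdd (n : ℤ))))
  rw [Finset.sum_image]
  · exact Finset.sum_congr rfl fun l _ => by rw [rl_coeff]
  · intro a _ b _ hab
    simpa using hab

/-- a coefficient of a product -/
theorem coeff_conv (N D : ℕ) (f : ℕ → ℝ) (a : ℤ[X]) (ha : a.natDegree ≤ D) (l : ℕ) (hD : D ≤ l)
    (hl : l < N) : (pr N f * a.map (Int.castRingHom ℝ)).coeff l =
      ∑ d ∈ Finset.range (D + 1), f (l - d) * (a.coeff d : ℝ) := by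
  rw [mul_comm, coeff_mul, Finset.Nat.sum_antidiagonal_eq_sum_range_succ_mk]
  rw [← Finset.sum_subset (Finset.range_subset_range.2 (Nat.succ_le_succ hD))]
  · refine Finset.sum_congr rfl fun d hd => ?_
    rw [Finset.mem_range] at hd
    rw [pr_coeff, if_pos (by omega), coeff_map]
    simp only [Int.coe_castRingHom]
    ring
  · intro d _ hd
    rw [Finset.mem_range, not_lt] at hd
    rw [coeff_map, coeff_eq_zero_of_natDegree_lt (by omega)]
    simp

theorem eval_conv (D : ℕ) (a : ℤ[X]) (ha : a.natDegree ≤ D) (z : ℂ) (hz : z ≠ 0) (w : ℂ) (l : ℕ)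
    (hD : D ≤ l) : ∑ d ∈ Finset.range (D + 1), (z⁻¹ ^ (l - d) * w) * (a.coeff d : ℂ) =
      z⁻¹ ^ l * (w * a.eval₂ (Int.castRingHom ℂ) z) := by
  rw [eval₂_eq_sum_range' _ (Nat.lt_succ_of_le ha), Finset.mul_sum, Finset.mul_sum]
  refine Finset.sum_congr rfl fun d hd => ?_
  rw [Finset.mem_range] at hd
  have h1 : z⁻¹ ^ l * z ^ d = z⁻¹ ^ (l - d) := by
    obtain ⟨m, rfl⟩ := Nat.exists_eq_add_of_le (show d ≤ l by omega)
    rw [Nat.add_sub_cancel_left, pow_add, inv_pow, inv_pow]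
    field_simp
  rw [← h1]
  simp only [Int.coe_castRingHom]
  ring

/-- real and imaginary part of a coefficient -/
theorem coeff_re {ι : Type} [Fintype ι] (N D : ℕ) (z : ℂ) (hz : z ≠ 0) (v : ι → ℂ) (a : ι → ℤ[X])
    (ha : ∀ i, (a i).natDegree ≤ D) (l : ℕ) (hD : D ≤ l) (hl : l < N) :
    (∑ i, pr N (fun j => (z⁻¹ ^ j * v i).re) * (a i).map (Int.castRingHom ℝ)).coeff l =
      (z⁻¹ ^ l * ∑ i, v i * (a i).eval₂ (Int.castRingHom ℂ) z).re ∧
    (∑ i, pr N (fun j => (z⁻¹ ^ j * v i).im) * (a i).map (Int.castRingHom ℝ)).coeff l =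
      (z⁻¹ ^ l * ∑ i, v i * (a i).eval₂ (Int.castRingHom ℂ) z).im := by
  constructor
  · rw [finset_sum_coeff, Finset.mul_sum, Complex.re_sum]
    refine Finset.sum_congr rfl fun i _ => ?_
    rw [coeff_conv N D _ _ (ha i) l hD hl, ← eval_conv D (a i) (ha i) z hz (v i) l hD,
      Complex.re_sum]
    refine Finset.sum_congr rfl fun d _ => ?_
    rw [← Complex.ofReal_intCast, Complex.re_mul_ofReal]
  · rw [finset_sum_coeff, Finset.mul_sum, Complex.im_sum]
    refine Finset.sum_congr rfl fun i _ => ?_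
    rw [coeff_conv N D _ _ (ha i) l hD hl, ← eval_conv D (a i) (ha i) z hz (v i) l hD,
      Complex.im_sum]
    refine Finset.sum_congr rfl fun d _ => ?_
    rw [← Complex.ofReal_intCast, Complex.im_mul_ofReal]

theorem cnorm_of_normLE {ι κ : Type} [Fintype ι] [Fintype κ] (A : Matrix ι κ ℤ[X]) (c : ℝ)
    (hA : NormLE (A.map lau) c) : CNorm A c := by
  intro z hz v
  have hz0 : z ≠ 0 := by
    rintro rfl
    simp at hz
  set D := ∑ i, ∑ j, (A i j).natDegree with hD
  have hdeg : ∀ i j, (A i j).natDegree ≤ D := fun i j =>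
    (Finset.single_le_sum (f := fun j => (A i j).natDegree) (fun _ _ => Nat.zero_le _)
      (Finset.mem_univ j)).trans (Finset.single_le_sum (f := fun i => ∑ j, (A i j).natDegree)
      (fun _ _ => Nat.zero_le _) (Finset.mem_univ i))
  set a := ∑ j, ‖(v ᵥ* at' z A) j‖ ^ 2 with ha
  set b := c ^ 2 * ∑ i, ‖v i‖ ^ 2 with hb
  have key : ∀ N : ℕ, D ≤ N → ((N : ℝ) - D) * a ≤ N * b := by
    intro N hN
    have hnz : ∀ j : ℕ, ‖z⁻¹ ^ j‖ = 1 := fun j => by rw [norm_pow, norm_inv, hz, inv_one, one_pow]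
    have e1 : ∀ (f : ι → ℕ → ℝ) (j : κ),
        ((fun i => rl (pr N (f i))) ᵥ* toReal (A.map lau)) j =
          rl (∑ i, pr N (f i) * (A i j).map (Int.castRingHom ℝ)) := by
      intro f j
      simp only [vecMul, dotProduct, toReal, Matrix.map_apply, map_sum, map_mul, rl_map]
    have h1 := hA fun i => rl (pr N fun j => (z⁻¹ ^ j * v i).re)
    have h2 := hA fun i => rl (pr N fun j => (z⁻¹ ^ j * v i).im)
    have e2 : ∀ f : ι → ℕ → ℝ, normSq (fun i => rl (pr N (f i))) =
        ∑ i, ∑ j ∈ Finset.range N, f i j ^ 2 := fun f =>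
      Finset.sum_congr rfl fun i _ => pr_support N (f i)
    rw [e2] at h1 h2
    have h3 : ∀ f : ι → ℕ → ℝ, ∑ j, ∑ l ∈ Finset.Ico D N,
        (∑ i, pr N (f i) * (A i j).map (Int.castRingHom ℝ)).coeff l ^ 2 ≤
        normSq ((fun i => rl (pr N (f i))) ᵥ* toReal (A.map lau)) := by
      intro f
      refine Finset.sum_le_sum fun j _ => ?_
      rw [e1]
      exact sum_le_n1 _ _ _
    have h4 := (h3 fun i j => (z⁻¹ ^ j * v i).re).trans h1
    have h5 := (h3 fun i j => (z⁻¹ ^ j * v i).im).trans h2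
    have h6 : ∑ j, ∑ l ∈ Finset.Ico D N,
        (∑ i, pr N (fun j => (z⁻¹ ^ j * v i).re) * (A i j).map (Int.castRingHom ℝ)).coeff l ^ 2 +
        ∑ j, ∑ l ∈ Finset.Ico D N,
        (∑ i, pr N (fun j => (z⁻¹ ^ j * v i).im) * (A i j).map (Int.castRingHom ℝ)).coeff l ^ 2 =
        ((N : ℝ) - D) * a := by
      rw [← Finset.sum_add_distrib, ha, Finset.mul_sum]
      refine Finset.sum_congr rfl fun j _ => ?_
      rw [← Finset.sum_add_distrib]
      have h7 : ∀ l ∈ Finset.Ico D N,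
          (∑ i, pr N (fun j => (z⁻¹ ^ j * v i).re) * (A i j).map (Int.castRingHom ℝ)).coeff l ^ 2 +
          (∑ i, pr N (fun j => (z⁻¹ ^ j * v i).im) * (A i j).map (Int.castRingHom ℝ)).coeff l ^ 2 =
          ‖(v ᵥ* at' z A) j‖ ^ 2 := by
        intro l hl
        rw [Finset.mem_Ico] at hl
        obtain ⟨g1, g2⟩ := coeff_re N D z hz0 v (fun i => A i j) (fun i => hdeg i j) l hl.1 hl.2
        rw [g1, g2]
        have g3 : (v ᵥ* at' z A) j = ∑ i, v i * (A i j).eval₂ (Int.castRingHom ℂ) z := rfl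
        rw [g3, ← one_mul ‖∑ i, v i * (A i j).eval₂ (Int.castRingHom ℂ) z‖, ← hnz l, ← norm_mul,
          ← Complex.normSq_eq_norm_sq, Complex.normSq_apply]
        ring
      rw [Finset.sum_congr rfl h7, Finset.sum_const, Nat.card_Ico, nsmul_eq_mul,
        Nat.cast_sub hN]
    have h8 : ∑ i, ∑ j ∈ Finset.range N, (z⁻¹ ^ j * v i).re ^ 2 +
        ∑ i, ∑ j ∈ Finset.range N, (z⁻¹ ^ j * v i).im ^ 2 = N * ∑ i, ‖v i‖ ^ 2 := by
      rw [← Finset.sum_add_distrib, Finset.mul_sum]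
      refine Finset.sum_congr rfl fun i _ => ?_
      rw [← Finset.sum_add_distrib]
      have h9 : ∀ j ∈ Finset.range N, (z⁻¹ ^ j * v i).re ^ 2 + (z⁻¹ ^ j * v i).im ^ 2 =
          ‖v i‖ ^ 2 := by
        intro j _
        rw [← one_mul ‖v i‖, ← hnz j, ← norm_mul, ← Complex.normSq_eq_norm_sq,
          Complex.normSq_apply]
        ring
      rw [Finset.sum_congr rfl h9, Finset.sum_const, Finset.card_range, nsmul_eq_mul]
    rw [← h6, hb]
    calc _ ≤ c ^ 2 * ∑ i, ∑ j ∈ Finset.range N, (z⁻¹ ^ j * v i).re ^ 2 +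
          c ^ 2 * ∑ i, ∑ j ∈ Finset.range N, (z⁻¹ ^ j * v i).im ^ 2 := add_le_add h4 h5
      _ = _ := by rw [← mul_add, h8]; ring
  by_contra hlt
  rw [not_le] at hlt
  have hpos : 0 < a - b := by linarith
  obtain ⟨N, hN⟩ := exists_nat_gt ((D : ℝ) * a / (a - b))
  have h1 := key (max N D) (le_max_right _ _)
  have h2 : (D : ℝ) * a < (max N D : ℕ) * (a - b) := by
    rw [div_lt_iff₀ hpos] at hN
    refine hN.trans_le (mul_le_mul_of_nonneg_right ?_ hpos.le)
    exact_mod_cast le_max_left _ _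
  nlinarith

end Pool.Agent.Q181.BD
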