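import Pool.Agent.Q181.BD.Circ2

set_option autoImplicit false

/-! Determinants of matrices of integer polynomials whose norm on the unit circle is small. -/

namespace Pool.Agent.Q181.BD

open TH57.Thr hiding tt
open Matrix Polynomial Pool.Agent.Q177.BD

/-- a product of binomials in `ℤ[X]` -/
noncomputable def bprod (s : Multiset ((ℤ × ℕ) × (ℤ × ℕ))) : ℤ[X] :=
  (s.map fun x => C x.1.1 * X ^ x.1.2 + C x.2.1 * X ^ x.2.2).prod

theorem pbin_of_bin {F : MonoidAlgebra ℤ (Multiplicative ℤ)} (hF : Bin F) :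
    ∃ (k : ℕ) (s : Multiset ((ℤ × ℕ) × (ℤ × ℕ))), lau (bprod s) = tt k * F := by
  obtain ⟨s, rfl⟩ := hF
  induction s using Multiset.induction_on with
  | empty =>
    refine ⟨0, 0, ?_⟩
    rw [Multiset.map_zero, Multiset.prod_zero, bprod, Multiset.map_zero, Multiset.prod_zero,
      map_one, mul_one]
    rfl
  | cons x s ih =>
    obtain ⟨k, t, ht⟩ := ih
    obtain ⟨⟨g, a⟩, ⟨h, b⟩⟩ := x
    obtain ⟨m, rfl⟩ := Multiplicative.ofAdd.surjective g
    obtain ⟨n, rfl⟩ := Multiplicative.ofAdd.surjective h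
    refine ⟨m.natAbs + n.natAbs + k,
      ((a, (m.natAbs + n.natAbs + m).toNat), (b, (m.natAbs + n.natAbs + n).toNat)) ::ₘ t, ?_⟩
    have e1 : lau (C a * X ^ (m.natAbs + n.natAbs + m).toNat +
        C b * X ^ (m.natAbs + n.natAbs + n).toNat) = tt ((m.natAbs + n.natAbs : ℕ) : ℤ) *
          (MonoidAlgebra.single (Multiplicative.ofAdd m) a +
            MonoidAlgebra.single (Multiplicative.ofAdd n) b) := by
      rw [map_add, lau_mono, lau_mono, mul_add, tt, MonoidAlgebra.single_mul_single,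
        MonoidAlgebra.single_mul_single, one_mul, one_mul, ← ofAdd_add, ← ofAdd_add]
      have h1 : (((m.natAbs + n.natAbs + m).toNat : ℕ) : ℤ) =
          ((m.natAbs + n.natAbs : ℕ) : ℤ) + m := by omega
      have h2 : (((m.natAbs + n.natAbs + n).toNat : ℕ) : ℤ) =
          ((m.natAbs + n.natAbs : ℕ) : ℤ) + n := by omega
      rw [h1, h2]
    unfold bprod at ht ⊢
    rw [Multiset.map_cons, Multiset.prod_cons, Multiset.map_cons, Multiset.prod_cons, map_mul, ht, e1,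
      Nat.cast_add (m.natAbs + n.natAbs) k, ← tt_mul]
    ring

/-- the lower part -/
theorem f_low (n : ℕ) (A : Matrix (Fin n) (Fin n) ℤ[X]) (c : ℝ) (hc0 : 0 ≤ c)
    (hc : c < 3 / Real.sqrt 2) (hA : CNorm A c) :
    (∃ (r : ℕ) (s : Multiset ((ℤ × ℕ) × (ℤ × ℕ))), X ^ r * A.det = bprod s) ∧
      (A.det ≠ 0 → ∃ N : ℕ, 1 ≤ N ∧ (A.det.map (Int.castRingHom ℂ)).mahlerMeasure = N) := by
  have h1 := bin_det (Multiplicative ℤ) (fun g k hk h => by
    obtain ⟨m, rfl⟩ := Multiplicative.ofAdd.surjective g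
    rw [← ofAdd_nsmul, ofAdd_eq_one, smul_eq_zero] at h
    rcases h with h | h
    · omega
    · rw [h, ofAdd_zero]) (Fin n) (A.map lau) c hc0 hc (normLE_of_cnorm A c hA)
  have h2 : (A.map lau).det = lau A.det := by
    have := RingHom.map_det lau A
    rw [this]
    rfl
  rw [h2] at h1
  refine ⟨?_, fun h0 => t_mah A.det (lau A.det) h0 h1 (Associated.refl _)⟩
  obtain ⟨k, s, hs⟩ := pbin_of_bin h1
  refine ⟨k, s, lau_inj ?_⟩
  rw [map_mul, lau_X, hs]

theorem lift_poly {n : ℕ} (A : Matrix (Fin n) (Fin n) (MonoidAlgebra ℤ (Multiplicative ℤ))) :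
    ∃ (k : ℕ) (B : Matrix (Fin n) (Fin n) ℤ[X]), B.map lau = A.map (fun a => a * tt k) := by
  choose Q k hQ using fun i j => exists_lau (A i j)
  refine ⟨∑ i, ∑ j, k i j, Matrix.of fun i j => X ^ ((∑ i, ∑ j, k i j) - k i j) * Q i j, ?_⟩
  ext1 i j
  have hle : k i j ≤ ∑ i, ∑ j, k i j :=
    (Finset.single_le_sum (f := fun j => k i j) (fun _ _ => Nat.zero_le _)
      (Finset.mem_univ j)).trans (Finset.single_le_sum (f := fun i => ∑ j, k i j)
      (fun _ _ => Nat.zero_le _) (Finset.mem_univ i))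
  rw [Matrix.map_apply, Matrix.map_apply, Matrix.of_apply, map_mul, lau_X, hQ, ← mul_assoc, tt_mul,
    mul_comm]
  congr 2
  omega

theorem normLE_tt {n : ℕ} (A : Matrix (Fin n) (Fin n) (MonoidAlgebra ℤ (Multiplicative ℤ))) (c : ℝ)
    (hA : NormLE A c) (k : ℤ) : NormLE (A.map (fun a => a * tt k)) c := by
  intro x
  refine le_of_eq_of_le ?_ (hA x)
  rw [normSq_eq, normSq_eq]
  refine Finset.sum_congr rfl fun j _ => ?_
  have h1 : (x ᵥ* toReal (A.map fun a => a * tt k)) j =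
      (x ᵥ* toReal A) j * MonoidAlgebra.single (Multiplicative.ofAdd k) (1 : ℝ) := by
    simp only [vecMul, dotProduct, toReal, Matrix.map_apply, map_mul, Finset.sum_mul, tt,
      MonoidAlgebra.mapRingHom_single, map_one, mul_assoc]
  rw [h1, Pool.Agent.Q181.LW.n1_mul_single', one_pow, one_mul]

theorem unit_lau (u : (MonoidAlgebra ℤ (Multiplicative ℤ))ˣ) :
    ∃ (U : ℤ[X]) (a i : ℕ), lau U = tt a * u ∧ (U = X ^ i ∨ U = -X ^ i) := by
  obtain ⟨U, a, hU⟩ := exists_lau (u : MonoidAlgebra ℤ (Multiplicative ℤ))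
  obtain ⟨V, b, hV⟩ := exists_lau ((u⁻¹ : (MonoidAlgebra ℤ (Multiplicative ℤ))ˣ) :
    MonoidAlgebra ℤ (Multiplicative ℤ))
  have hUV : U * V = X ^ (a + b) := by
    apply lau_inj
    rw [map_mul, hU, hV, lau_X, Nat.cast_add, ← tt_mul]
    have := u.mul_inv
    linear_combination (tt a * tt b) * this
  obtain ⟨i, -, hi⟩ := (dvd_prime_pow prime_X (a + b)).1 ⟨V, hUV.symm⟩
  obtain ⟨w, hw⟩ := hi.symm
  refine ⟨U, a, i, hU, ?_⟩
  obtain ⟨r, hr, hr2⟩ := Polynomial.isUnit_iff.1 w.isUnit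
  rcases Int.isUnit_iff.1 hr with rfl | rfl
  · left
    rw [← hw, ← hr2]
    simp
  · right
    rw [← hw, ← hr2]
    simp

/-- the upper part -/
theorem f_up (P : ℤ[X]) : ∃ C : ℕ, ∀ L : ℕ, 1 ≤ L → ∃ (n : ℕ) (A : Matrix (Fin n) (Fin n) ℤ[X]),
    n ≤ C * L ∧ CNorm A (3 / Real.sqrt 2 + (1 / 2) ^ L) ∧
      ∃ r s : ℕ, X ^ r * A.det = X ^ s * P ∨ X ^ r * A.det = -(X ^ s * P) := by
  obtain ⟨C, hC⟩ := t_up (Multiplicative ℤ) (lau P)
  refine ⟨C, fun L hL => ?_⟩
  obtain ⟨n, A, hn, ⟨u, hu⟩, hnorm⟩ := hC L hL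
  obtain ⟨k, B, hB⟩ := lift_poly A
  refine ⟨n, B, hn, cnorm_of_normLE B _ (by rw [hB]; exact normLE_tt A _ hnorm k), ?_⟩
  obtain ⟨U, a, i, hU, hU2⟩ := unit_lau u
  have h1 : lau B.det = A.det * tt k ^ n := by
    have e1 : lau B.det = (B.map lau).det := by
      rw [RingHom.map_det lau B]
      rfl
    have e2 : A.map (fun a => a * tt k) = (tt k) • A := by
      ext1 i j
      rw [Matrix.map_apply, Matrix.smul_apply, smul_eq_mul, mul_comm]
    rw [e1, hB, e2, Matrix.det_smul, Fintype.card_fin, mul_comm]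
  have h2 : tt (k : ℤ) ^ n = tt ((k * n : ℕ) : ℤ) := by
    have e : (tt (k : ℤ)) = lau (X ^ k) := (lau_X k).symm
    rw [e, ← map_pow, ← pow_mul, lau_X]
  have h3 : U * B.det = X ^ (a + k * n) * P := by
    apply lau_inj
    rw [map_mul, map_mul, hU, h1, h2, ← hu, lau_X, Nat.cast_add, ← tt_mul]
    ring
  refine ⟨i, a + k * n, ?_⟩
  rcases hU2 with rfl | rfl
  · exact Or.inl h3
  · right
    rw [← h3]
    ring

end Pool.Agent.Q181.BD
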