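import Pool.Agent.TH57.Thr.Struct

set_option autoImplicit false

/-!
# Determinants of integral matrices of norm less than `3 / √2`: definitions

A *net* is a symmetric integral bipartite weight `W` on a set `V` of vertices whose quadratic form is
at most `c < 3 / √2`. Two vertices `u`, `v` are adjacent if `W u v ≠ 0`. A *line* is an induced
bi-infinite path.
-/

namespace Pool.Agent.Q181.BD

/-- a symmetric integral bipartite weight whose quadratic form is at most `c < 3 / √2` -/
structure Net {V : Type} (W : V → V → ℤ) (c : ℝ) : Prop where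
  symm : ∀ u v, W u v = W v u
  side : ∃ s : V → Bool, ∀ u v, W u v ≠ 0 → s u ≠ s v
  form : ∀ (S : Finset V) (f : V → ℝ),
    ∑ u ∈ S, ∑ v ∈ S, (W u v : ℝ) * f u * f v ≤ c * ∑ u ∈ S, f u ^ 2
  lt : c < 3 / Real.sqrt 2

/-- an induced bi-infinite path -/
structure Line {V : Type} (W : V → V → ℤ) (p : ℤ → V) : Prop where
  inj : Function.Injective p
  adj : ∀ i j, W (p i) (p j) ≠ 0 ↔ (j = i + 1 ∨ i = j + 1)

variable {V : Type}

/-- `u` is not on the line `p` -/
def Off (p : ℤ → V) (u : V) : Prop := ∀ i, p i ≠ u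

/-- no vertex of the line `p` is adjacent to `u` -/
def Free (W : V → V → ℤ) (p : ℤ → V) (u : V) : Prop := ∀ i, W (p i) u = 0

/-- the only vertex of the line `p` adjacent to `u` is `p i` -/
def One (W : V → V → ℤ) (p : ℤ → V) (u : V) (i : ℤ) : Prop := ∀ k, W (p k) u ≠ 0 ↔ k = i

/-- the vertices of the line `p` adjacent to `u` are `p (a - 1)` and `p (a + 1)` -/
def Two (W : V → V → ℤ) (p : ℤ → V) (u : V) (a : ℤ) : Prop :=
  ∀ k, W (p k) u ≠ 0 ↔ (k = a - 1 ∨ k = a + 1)

/-- the lines `p`, `q` are disjoint -/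
def Dis (p q : ℤ → V) : Prop := ∀ i j, p i ≠ q j

/-- `x 1, …, x n` is an induced path off the line `p` -/
structure Arm (W : V → V → ℤ) (p : ℤ → V) (n : ℕ) (x : ℕ → V) : Prop where
  off : ∀ k, 1 ≤ k → k ≤ n → Off p (x k)
  inj : ∀ k l, 1 ≤ k → k ≤ n → 1 ≤ l → l ≤ n → x k = x l → k = l
  adj : ∀ k l, 1 ≤ k → k ≤ n → 1 ≤ l → l ≤ n → (W (x k) (x l) ≠ 0 ↔ (l = k + 1 ∨ k = l + 1))

/-- the line `p` with the part strictly between `p a` and `p b` replaced by `x 1, …, x n`; the vertex
`x k` has the position `a + k` and `p b` has the position `a + n + 1` -/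
def sur (p : ℤ → V) (a b : ℤ) (n : ℕ) (x : ℕ → V) : ℤ → V := fun i =>
  if i ≤ a then p i else if i ≤ a + n then x (i - a).toNat else p (i - a - n - 1 + b)

/-- connected by a path -/
def Conn (W : V → V → ℤ) (u v : V) : Prop := Relation.ReflTransGen (fun a b => W a b ≠ 0) u v

/-! ## Reversal and translation -/

variable {W : V → V → ℤ} {c : ℝ} {p : ℤ → V}

theorem Line.rev (h : Line W p) : Line W (fun k => p (-k)) :=
  ⟨fun i j hij => by have := h.inj hij; omega, fun i j => by rw [h.adj]; omega⟩

theorem Line.shift (h : Line W p) (a : ℤ) : Line W (fun k => p (k + a)) :=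
  ⟨fun i j hij => by have := h.inj hij; omega, fun i j => by rw [h.adj]; omega⟩

theorem Off.rev {u : V} (h : Off p u) : Off (fun k => p (-k)) u := fun i => h _

theorem Off.shift {u : V} (h : Off p u) (a : ℤ) : Off (fun k => p (k + a)) u := fun i => h _

theorem Free.rev {u : V} (h : Free W p u) : Free W (fun k => p (-k)) u := fun i => h _

theorem Free.shift {u : V} (h : Free W p u) (a : ℤ) : Free W (fun k => p (k + a)) u := fun i => h _

theorem One.rev {u : V} {i : ℤ} (h : One W p u i) : One W (fun k => p (-k)) u (-i) := fun k => by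
  have := h (-k)
  simp only [this]
  omega

theorem One.shift {u : V} {i : ℤ} (h : One W p u i) (a : ℤ) :
    One W (fun k => p (k + a)) u (i - a) := fun k => by
  have := h (k + a)
  simp only [this]
  omega

theorem Two.rev {u : V} {i : ℤ} (h : Two W p u i) : Two W (fun k => p (-k)) u (-i) := fun k => by
  have := h (-k)
  simp only [this]
  omega

theorem Two.shift {u : V} {i : ℤ} (h : Two W p u i) (a : ℤ) :
    Two W (fun k => p (k + a)) u (i - a) := fun k => by
  have := h (k + a)
  simp only [this]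
  omega

/-! ## The surgery, by position -/

theorem sur_le (p : ℤ → V) (a b : ℤ) (n : ℕ) (x : ℕ → V) (i : ℤ) (h : i ≤ a) :
    sur p a b n x i = p i := if_pos h

theorem sur_mid (p : ℤ → V) (a b : ℤ) (n : ℕ) (x : ℕ → V) (k : ℕ) (h1 : 1 ≤ k) (h2 : k ≤ n) :
    sur p a b n x (a + k) = x k := by
  unfold sur
  rw [if_neg (by omega), if_pos (by omega)]
  congr 1
  omega

theorem sur_ge (p : ℤ → V) (a b : ℤ) (n : ℕ) (x : ℕ → V) (i : ℤ) (h : b ≤ i) :
    sur p a b n x (i - b + a + n + 1) = p i := by
  unfold sur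
  rw [if_neg (by omega), if_neg (by omega)]
  congr 1
  omega

/-- every position is of one of the three kinds -/
theorem sur_cases (p : ℤ → V) (a b : ℤ) (n : ℕ) (x : ℕ → V) (i : ℤ) :
    (i ≤ a ∧ sur p a b n x i = p i) ∨
    (∃ k : ℕ, 1 ≤ k ∧ k ≤ n ∧ i = a + k ∧ sur p a b n x i = x k) ∨
    (∃ l : ℤ, b ≤ l ∧ i = l - b + a + n + 1 ∧ sur p a b n x i = p l) := by
  rcases le_or_gt i a with h | h
  · exact Or.inl ⟨h, sur_le p a b n x i h⟩
  · rcases le_or_gt i (a + n) with h' | h'
    · refine Or.inr (Or.inl ⟨(i - a).toNat, by omega, by omega, by omega, ?_⟩)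
      have := sur_mid p a b n x (i - a).toNat (by omega) (by omega)
      rwa [show a + ((i - a).toNat : ℤ) = i by omega] at this
    · refine Or.inr (Or.inr ⟨i - a - n - 1 + b, by omega, by omega, ?_⟩)
      have := sur_ge p a b n x (i - a - n - 1 + b) (by omega)
      rwa [show i - a - n - 1 + b - b + a + n + 1 = i by omega] at this

/-! ## Parity -/

theorem Net.loop (hN : Net W c) (u : V) : W u u = 0 := by
  obtain ⟨s, hs⟩ := hN.side
  by_contra h
  exact hs u u h rfl

theorem line_side {s : V → Bool} (hs : ∀ u v, W u v ≠ 0 → s u ≠ s v) (hp : Line W p) (i : ℤ) :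
    s (p i) = if Even i then s (p 0) else !(s (p 0)) := by
  have step : ∀ k : ℤ, s (p (k + 1)) = !(s (p k)) := by
    intro k
    have h := hs _ _ ((hp.adj k (k + 1)).2 (Or.inl rfl))
    revert h
    cases s (p k) <;> cases s (p (k + 1)) <;> simp
  induction i using Int.induction_on with
  | zero => simp
  | succ n ih =>
    rw [step, ih]
    by_cases h : Even (n : ℤ)
    · have h' : ¬ Even ((n : ℤ) + 1) := by simpa [Int.even_add_one] using h
      rw [if_pos h, if_neg h']
    · have h' : Even ((n : ℤ) + 1) := by simpa [Int.even_add_one] using h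
      rw [if_neg h, if_pos h', Bool.not_not]
  | pred n ih =>
    have h1 := step (-(n : ℤ) - 1)
    rw [sub_add_cancel, ih] at h1
    by_cases h : Even (-(n : ℤ))
    · have h' : ¬ Even (-(n : ℤ) - 1) := by
        rw [Int.even_sub_one]; simpa using h
      rw [if_neg h']
      rw [if_pos h] at h1
      rw [h1, Bool.not_not]
    · have h' : Even (-(n : ℤ) - 1) := by
        rw [Int.even_sub_one]; simpa using h
      rw [if_pos h']
      rw [if_neg h] at h1
      revert h1
      cases s (p 0) <;> cases s (p (-(n : ℤ) - 1)) <;> simp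

/-- the positions of the neighbours of a vertex on a line have the same parity -/
theorem Net.even (hN : Net W c) (hp : Line W p) {u : V} {i j : ℤ} (hi : W (p i) u ≠ 0)
    (hj : W (p j) u ≠ 0) : Even (i - j) := by
  obtain ⟨s, hs⟩ := hN.side
  have h1 := hs _ _ hi
  have h2 := hs _ _ hj
  rw [line_side hs hp] at h1 h2
  rw [Int.even_sub]
  revert h1 h2
  by_cases a : Even i <;> by_cases b : Even j <;> simp only [a, b, if_true, if_false] <;>
    cases s (p 0) <;> cases s u <;> simp

/-- the positions of the neighbours of two adjacent vertices on a line have different parities -/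
theorem Net.odd (hN : Net W c) (hp : Line W p) {u v : V} (huv : W u v ≠ 0) {i j : ℤ}
    (hi : W (p i) u ≠ 0) (hj : W (p j) v ≠ 0) : Odd (i - j) := by
  obtain ⟨s, hs⟩ := hN.side
  have h0 := hs _ _ huv
  have h1 := hs _ _ hi
  have h2 := hs _ _ hj
  rw [line_side hs hp] at h1 h2
  rw [← Int.not_even_iff_odd, Int.even_sub]
  revert h0 h1 h2
  by_cases a : Even i <;> by_cases b : Even j <;> simp only [a, b, if_true, if_false] <;>
    cases s (p 0) <;> cases s u <;> cases s v <;> simp

end Pool.Agent.Q181.BD
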