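import Pool.Agent.Q181.BD.Main
import Pool.Agent.Q249.BD.Deg
import Pool.Agent.Q249.BD.Sub
import Pool.Agent.Q249.BD.Two
import Pool.Agent.Q249.BD.Out
import Pool.Agent.Q249.BD.NetA
import Pool.Agent.Q14.BD.Tree
import Pool.Agent.Q14.BD.Star
import Pool.Agent.Q14.BD.Pos
import Pool.Agent.Q14.BD.LL
import Pool.Agent.Q213.BD.SA
import Pool.Agent.Q213.BD.LL2
import Pool.Agent.Q175.BD.Tri
import Pool.Agent.Q175.BD.All
import Pool.Agent.Q175.BD.Typ
import Pool.Agent.Q175.BD.Lad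
import Pool.Agent.Q175.BD.Conn
import Pool.Agent.Q175.BD.Tor
import Pool.Agent.Q175.BD.Geo
import Pool.Agent.Q234.BD.Orb
import Pool.Agent.Q150.BD.Four
import Pool.Agent.Q150.BD.Dich
import Pool.Agent.Q150.BD.DetTwo
import Pool.Agent.Q181.BD.Blk2
import Pool.Agent.Q177.BD.DetFour
import Pool.Agent.Q177.BD.Mah

set_option autoImplicit false

/-! The statements proved by the team, put together. -/

namespace Pool.Agent.Q181.BD

open TH57.Thr

theorem f_sa : S_sa := Pool.Agent.Q213.BD.t_sa Pool.Agent.Q14.BD.t_tree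
theorem f_two : S_two := Pool.Agent.Q249.BD.t_two Pool.Agent.Q249.BD.t_deg Pool.Agent.Q249.BD.t_sub f_sa
theorem f_star : S_star := Pool.Agent.Q14.BD.t_star Pool.Agent.Q14.BD.t_tree
theorem f_fork : S_fork := Pool.Agent.Q14.BD.t_fork Pool.Agent.Q14.BD.t_tree
theorem f_out : S_out := Pool.Agent.Q249.BD.t_out f_star f_two
theorem f_tri : S_tri := Pool.Agent.Q175.BD.t_tri f_two
theorem f_ll1 : S_ll1 :=
  Pool.Agent.Q14.BD.t_ll1 f_sa Pool.Agent.Q249.BD.t_sub f_two f_out f_fork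
theorem f_ll2 : S_ll2 :=
  Pool.Agent.Q213.BD.t_ll2 f_sa Pool.Agent.Q249.BD.t_sub f_two f_out
theorem f_all : S_all := Pool.Agent.Q175.BD.t_all f_ll1 f_ll2 f_tri
theorem f_opp : S_opp :=
  Pool.Agent.Q14.BD.t_opp f_sa Pool.Agent.Q249.BD.t_sub f_two f_out
theorem f_typ : S_typ := Pool.Agent.Q175.BD.t_typ f_two Pool.Agent.Q249.BD.t_sub f_opp
theorem f_lad : S_lad := Pool.Agent.Q175.BD.t_lad Pool.Agent.Q249.BD.t_sub f_two f_out
theorem f_conn : S_conn := Pool.Agent.Q175.BD.t_conn f_two f_tri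
theorem f_tor : S_tor :=
  Pool.Agent.Q175.BD.t_tor Pool.Agent.Q249.BD.t_deg Pool.Agent.Q14.BD.t_pos f_conn f_all f_typ f_lad
theorem f_four : S_four :=
  Pool.Agent.Q150.BD.t_four Pool.Agent.Q249.BD.t_deg Pool.Agent.Q175.BD.t_geo f_tor
theorem f_dich : S_dich := Pool.Agent.Q150.BD.t_dich Pool.Agent.Q234.BD.t_orb f_four

/-- Determinants of matrices over the integral group ring of a torsion-free abelian group whose norm is
less than `3 / √2` are products of binomials. -/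
theorem bin_det (G : Type) [CommGroup G] (htf : ∀ g : G, ∀ k : ℕ, 0 < k → g ^ k = 1 → g = 1)
    (κ : Type) [Fintype κ] [DecidableEq κ] (A : Matrix κ κ (MonoidAlgebra ℤ G)) (c : ℝ)
    (hc0 : 0 ≤ c) (hc : c < 3 / Real.sqrt 2) (hA : NormLE A c) : Bin A.det :=
  bin_of Pool.Agent.Q249.BD.t_net f_dich Pool.Agent.Q150.BD.t_dettwo
    Pool.Agent.Q177.BD.t_detfour Pool.Agent.Q181.BD.Blk2.t_blk G htf κ A c hc0 hc hA

end Pool.Agent.Q181.BD
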