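import Pool.Agent.Q181.LR.Up

set_option autoImplicit false

/-! Every element of the group ring is, up to units, the determinant of a matrix of norm at most
`3 / √2` plus `2 ^ (-L)` with `O(L)` rows. -/

namespace Pool.Agent.Q181.BD

open TH57.Thr Matrix Pool.Agent.Q181.LR

theorem t_up (G : Type) [CommGroup G] (f : MonoidAlgebra ℤ G) :
    ∃ C : ℕ, ∀ L : ℕ, 1 ≤ L → ∃ (n : ℕ) (A : Matrix (Fin n) (Fin n) (MonoidAlgebra ℤ G)),
      n ≤ C * L ∧ Associated A.det f ∧ NormLE A (3 / Real.sqrt 2 + (1 / 2) ^ L) := by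
  classical
  obtain ⟨C, hC⟩ := upper_rect (G := G) (Matrix.of fun _ _ : Fin 1 => f)
  refine ⟨C + 1, fun L hL => ?_⟩
  obtain ⟨m, B, ⟨P, P', hB⟩, hm, hnorm, -⟩ := hC L hL
  refine ⟨1 + m, B.submatrix finSumFinEquiv.symm finSumFinEquiv.symm, ?_, ?_,
    NormLE_sub _ _ _ _ hnorm⟩
  · have : (C + 1) * L = C * L + L := by ring
    omega
  · rw [Matrix.det_submatrix_equiv_self, hB, Matrix.det_mul, Matrix.det_mul,
      Matrix.det_fromBlocks_zero₂₁, Matrix.det_one, mul_one, Matrix.det_fin_one]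
    have hP : IsUnit P.val.det := (Matrix.isUnit_iff_isUnit_det _).1 P.isUnit
    have hP' : IsUnit P'.val.det := (Matrix.isUnit_iff_isUnit_det _).1 P'.isUnit
    obtain ⟨u, hu⟩ := hP
    obtain ⟨u', hu'⟩ := hP'
    refine ⟨u⁻¹ * u'⁻¹, ?_⟩
    rw [← hu, ← hu']
    change (u : MonoidAlgebra ℤ G) * f * u' * (((u⁻¹ : (MonoidAlgebra ℤ G)ˣ) * u'⁻¹ :
      (MonoidAlgebra ℤ G)ˣ) : MonoidAlgebra ℤ G) = f
    rw [Units.val_mul]
    calc (u : MonoidAlgebra ℤ G) * f * u' * ((u⁻¹ : (MonoidAlgebra ℤ G)ˣ) * (u'⁻¹ : (MonoidAlgebra ℤ G)ˣ))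
        = f * ((u : MonoidAlgebra ℤ G) * (u⁻¹ : (MonoidAlgebra ℤ G)ˣ))
            * ((u' : MonoidAlgebra ℤ G) * (u'⁻¹ : (MonoidAlgebra ℤ G)ˣ)) := by ring
      _ = f := by rw [Units.mul_inv, Units.mul_inv, mul_one, mul_one]

end Pool.Agent.Q181.BD
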