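import Pool.Agent.Q181.BD.Stm3
import Pool.Agent.Q181.BD.Up

set_option autoImplicit false

/-! The assembly. -/

namespace Pool.Agent.Q181.BD

open TH57.Thr

theorem bin_of (h_net : S_net) (h_dich : S_dich) (h_two : S_dettwo) (h_four : S_detfour)
    (h_blk : S_blk) (G : Type) [CommGroup G] (htf : ∀ g : G, ∀ k : ℕ, 0 < k → g ^ k = 1 → g = 1)
    (κ : Type) [Fintype κ] [DecidableEq κ] (A : Matrix κ κ (MonoidAlgebra ℤ G)) (c : ℝ)
    (hc0 : 0 ≤ c) (hc : c < 3 / Real.sqrt 2) (hA : NormLE A c) : Bin A.det := by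
  refine h_blk G c (fun κ _ _ A hA hI => ?_) κ A hA
  rcases h_dich G htf κ A _ (h_net G κ κ A c hc0 hc hA) hI with h | ⟨h, hh⟩
  · exact h_four G htf κ A h
  · exact h_two G htf κ A h hh

end Pool.Agent.Q181.BD
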