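import Pool.Agent.Q181.BD.Defs

set_option autoImplicit false

/-!
# Statements, part 1: the local rules

Throughout `W` is a net (`Net W c`, `c < 3 / √2`) and `p` a line. Put `y = 1 / √2`, so `y ^ 2 = 1 / 2`,
`1 = 2 y ^ 2`, `c < 3 y`. The rules are proved with test functions `h ≥ 0` on finite induced trees
(`S_tree`). For such a function let `E = 3 y ∑ h x ^ 2 - 2 ∑_{edges} h h'`. It is the sum of
`h x * (3 y h x - ∑_{neighbours x'} h x')`. By `S_tree`, `E ≥ (3 y - c) ∑ h x ^ 2 > 0`. If `h` is a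
multiple of `y ^ k` along a ray then `3 y h x - ∑ h x' = 0` at its inner vertices
(`y ^ (k - 1) + y ^ (k + 1) = 3 y * y ^ k`); a ray truncated after `N` steps contributes
`h_N * h_(N+1) = y ^ (2 N + 1) h_0 ^ 2` to `E`. So we get a contradiction if `E` is at most
`C y ^ (2 N + 1)` for all large `N`, with `C` and a lower bound of `∑ h ^ 2` independent of `N`.
Helper lemmas on reversal, translation, parity: `Defs.lean`.
-/

namespace Pool.Agent.Q181.BD

/-- (R1) **Degrees.** Proof. We may assume that `u` is not in `S` (`W u u = 0`) and `W u v ≠ 0` on `S`; then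
`W v v' = 0` for `v, v' ∈ S` (they are on the same side). Let `D = ∑ v ∈ S, W u v ^ 2`. The form on
`insert u S` with `f u = √D`, `f v = W u v` gives `2 D √D ≤ 2 c D`, so `D ≤ c ^ 2 < 9 / 2` if `D > 0`, and `D`
is an integer. -/
def S_deg : Prop := ∀ (V : Type) (W : V → V → ℤ) (c : ℝ), Net W c → ∀ (u : V) (S : Finset V),
  ∑ v ∈ S, W u v ^ 2 ≤ 4

/-- (R2) **Test functions on induced forests.** `par` is the parent, `rk` decreases. Proof. Signs
`ε x = ± 1` with `ε x * ε (par x) * W > 0` by recursion on `rk`; apply the form to the function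
`ε x * h x` at `τ x` (`Finset.univ.image τ`, see `Pool.Agent.Q181.LW.quad_inj`), and
`|W (τ x) (τ (par x))| ≥ 1`. -/
def S_tree : Prop := ∀ (V : Type) (W : V → V → ℤ) (c : ℝ), Net W c →
  ∀ (ω : Type) [Fintype ω] [DecidableEq ω] (τ : ω → V) (par : ω → Option ω) (rk : ω → ℕ)
    (h : ω → ℝ), Function.Injective τ → (∀ x y, par x = some y → rk y < rk x) →
    (∀ x y, par x = some y → W (τ x) (τ y) ≠ 0) →
    (∀ x y, W (τ x) (τ y) ≠ 0 → par x = some y ∨ par y = some x) → (∀ x, 0 ≤ h x) →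
    2 * ∑ x, (par x).elim 0 (fun y => h x * h y) ≤ c * ∑ x, h x ^ 2

/-- (R3) **Two side arms.** `x 1, …, x m` is an arm attached to `p i` by `x 1` only, `u` a vertex attached
to `p j` only, `|j - i| ≤ m + 1`, `m ≥ 1`: impossible.
Proof. Let `d = |j - i|`; we may assume `i = 0`, `j = d` (reversal, translation) and shorten the arm to the
length `max 1 (d - 1)`. Test functions (`S_tree`):
`d = 0`: `y ^ |k|` at `p k` (`|k| ≤ N`), `2 y / 3` at `x 1` and `u`. Then `E = - y / 3 + 2 y ^ (2 N + 1)`,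
negative for `N = 3`.
`d = 1`: `y ^ (distance to {0, 1})` on `p`, `2 y / 3` at `x 1` and `u`:
`E = 2 (4 y / 3 - 1) + 2 y ^ (2 N + 1)`, negative for `N = 4`.
`d ≥ 2`: `Y = y ^ (2 d) ≤ 1 / 4`. The value at `p (-k)`, `k ≥ 0`, is `(1 - Y) y ^ k`; at `x k`
(`1 ≤ k ≤ d - 1`; it would be `0` for `k = d`) `y ^ k - y ^ (2 d - k)`; at `p k`, `0 ≤ k ≤ d`,
`y ^ k + y ^ (2 d - k) - 2 y ^ (2 d + k)`; at `p (d + k)`, `k ≥ 0`, `β y ^ k`, `β = 2 y ^ d (1 - Y)`; at
`u` it is `(2 y / 3) β`. The terms `3 y h x - ∑ h x'` vanish at all vertices but `p d` and the ends, and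
at `p d` the term is `y ^ d * y * (4 Y - 1) / 3 ≤ 0`. So `E ≤ ((1 - Y) ^ 2 + β ^ 2) y ^ (2 N + 1)`. -/
def S_sa : Prop := ∀ (V : Type) (W : V → V → ℤ) (c : ℝ), Net W c → ∀ p : ℤ → V, Line W p →
  ∀ (i j : ℤ) (m : ℕ) (x : ℕ → V) (u : V), 1 ≤ m → (j - i).natAbs ≤ m + 1 → Arm W p m x →
    (∀ k a, 1 ≤ k → k ≤ m → (W (p a) (x k) ≠ 0 ↔ (a = i ∧ k = 1))) →
    Off p u → One W p u j → (∀ k, 1 ≤ k → k ≤ m → x k ≠ u ∧ W (x k) u = 0) → False

/-- (R4) **A star with a ray.** Test function `1` at `p i`, `y ^ k` at `p (i - k)`, `2 y / 3` at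
`p (i + 1)`, `u`, `w` (they are on the same side, so not adjacent): `E = y ^ (2 N + 1)`. -/
def S_star : Prop := ∀ (V : Type) (W : V → V → ℤ) (c : ℝ), Net W c → ∀ p : ℤ → V, Line W p →
  ∀ (i : ℤ) (u w : V), u ≠ w → Off p u → Off p w → W (p i) u ≠ 0 → W (p i) w ≠ 0 →
    (∀ k, k < i → W (p k) u = 0) → (∀ k, k < i → W (p k) w = 0) → False

/-- (R5) **A fork off a line.** Test function `y ^ |k - i|` at `p k`, `6 y / 5` at `u`, `2 / 5` at `a` and
`b` (same side, so not adjacent; `≠ u` because adjacent to `u`): `E = - y / 5 + 2 y ^ (2 N + 1)`, negative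
for `N = 4`. -/
def S_fork : Prop := ∀ (V : Type) (W : V → V → ℤ) (c : ℝ), Net W c → ∀ p : ℤ → V, Line W p →
  ∀ (i : ℤ) (u a b : V), Off p u → One W p u i → a ≠ b → Off p a → Off p b → W u a ≠ 0 →
    W u b ≠ 0 → Free W p a → Free W p b → False

/-- (R6) **Squares are negative.** Proof. Otherwise the product of the four weights is positive and there
are signs `ε` on `p` and at `u` such that `ε v ε v' W v v' > 0` for all edges of the subgraph
`p ∪ {u}`. Test function (times `ε`) `4 y / 3` at `p i` and `u`, `y ^ k` at `p (i ± (1 + k))`: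
`E = - 4 y / 3 + 2 y ^ (2 N + 1)` (at `p i`, `u`: `3 y * 4 y / 3 - 2 = 0`; at `p (i ± 1)`:
`3 y - y - 2 * 4 y / 3 = - 2 y / 3`). -/
def S_pos : Prop := ∀ (V : Type) (W : V → V → ℤ) (c : ℝ), Net W c → ∀ p : ℤ → V, Line W p →
  ∀ (i : ℤ) (u : V), Off p u → Two W p u i →
    W (p (i - 1)) (p i) * W (p i) (p (i + 1)) * W (p (i + 1)) u * W u (p (i - 1)) < 0

/-- (R7) **Surgery.** The part of `p` strictly between `p a` and `p b`, `a + 2 ≤ b`, may be replaced by
`x 1, …, x n` if `x 1` is adjacent to `p a`, `x n` to `p b` and there are no other adjacencies with the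
rest of `p` (adjacencies with the removed part are allowed). Proof by `sur_cases`. -/
def S_sub : Prop := ∀ (V : Type) (W : V → V → ℤ), (∀ u v, W u v = W v u) → ∀ p : ℤ → V, Line W p →
  ∀ (a b : ℤ) (n : ℕ) (x : ℕ → V), a + 2 ≤ b → 1 ≤ n → Arm W p n x →
    (∀ k i, 1 ≤ k → k ≤ n → (i ≤ a ∨ b ≤ i) →
      (W (p i) (x k) ≠ 0 ↔ ((i = a ∧ k = 1) ∨ (i = b ∧ k = n)))) →
    Line W (sur p a b n x)

/-- (R8) **A vertex off the line has at most two neighbours on the line, at distance two.**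
Proof. By `S_deg` the set of `k` with `W (p k) u ≠ 0` is finite; let `a` be the smallest, `b` the largest
element. By parity (`Net.even`) `b - a` is even. If `b - a ≤ 2` we are done. If `b - a ≥ 4` the line
`p' = sur p a b 1 (fun _ => u)` (`S_sub`; `p b` has the position `a + 2`) has the side arms `p (a + 1)` at the
position `a` and `p (b - 1)` at the position `a + 2` (not adjacent to `u` by parity), which contradicts
`S_sa` (`m = 1`). (`S_deg`, `S_sub`, `S_sa` may be assumed.) -/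
def S_two : Prop := ∀ (V : Type) (W : V → V → ℤ) (c : ℝ), Net W c → ∀ p : ℤ → V, Line W p →
  ∀ (u : V) (i j : ℤ), Off p u → W (p i) u ≠ 0 → W (p j) u ≠ 0 → i ≤ j → j = i ∨ j = i + 2

/-- (R9) **Two vertices off the line with a common neighbour on the line.** Proof. If `p (i - 2)` is
adjacent to neither, then by `S_two` no `p k`, `k < i`, is adjacent to `u` or `w`, which contradicts
`S_star`. The other side by reversal. (`S_star`, `S_two` may be assumed.) -/
def S_out : Prop := ∀ (V : Type) (W : V → V → ℤ) (c : ℝ), Net W c → ∀ p : ℤ → V, Line W p →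
  ∀ (i : ℤ) (u w : V), u ≠ w → Off p u → Off p w → W (p i) u ≠ 0 → W (p i) w ≠ 0 →
    (W (p (i - 2)) u ≠ 0 ∨ W (p (i - 2)) w ≠ 0) ∧ (W (p (i + 2)) u ≠ 0 ∨ W (p (i + 2)) w ≠ 0)

/-- (R10) **No infinite path off the line.** Proof. By `S_two` the neighbours of `q 0` on `p` are `p i`, or
`p i` and `p (i + 2)`. In the first case there is an induced tripod with centre `p i` and the arms
`p (i - k)`, `p (i + k)`, `q (k - 1)`; in the second case one with centre `q 0` and the arms `p (i + 1 - k)`,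
`p (i + 1 + k)`, `q k` (`k ≥ 1`). `TH57.Thr.tripod_bound` for all `N` gives `3 y ≤ c`. (`S_two` may be
assumed.) -/
def S_tri : Prop := ∀ (V : Type) (W : V → V → ℤ) (c : ℝ), Net W c → ∀ p : ℤ → V, Line W p →
  ∀ q : ℕ → V, (∀ k, Off p (q k)) → Function.Injective q →
    (∀ k l, W (q k) (q l) ≠ 0 ↔ (l = k + 1 ∨ k = l + 1)) → (∃ i, W (p i) (q 0) ≠ 0) →
    (∀ k, 1 ≤ k → Free W p (q k)) → False

end Pool.Agent.Q181.BD
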