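import Pool.Agent.Q181.BD.Stm1

set_option autoImplicit false

/-!
# Statements, part 2: two disjoint lines

`p`, `q` are disjoint lines of a net. Write `N s` for the set of the `k` with `W (p k) (q s) ≠ 0`. By `S_two`
it is empty, `{k}` or `{k, k + 2}`; by parity (`Net.odd`) the elements of `N s` and `N (s + 1)` have
different parities. All the rules of part 1 may be assumed.
-/

namespace Pool.Agent.Q181.BD

/-- (L1) Proof. (a) `N 0 = {0}`: otherwise `Two W p (q 0) a` with `a = ± 1`. The line
`p' = sur p (a - 1) (a + 1) 1 (fun _ => q 0)` has `p' a = q 0`, `p' k = p k` for `k ≠ a`. `q 1` and `q (-1)` are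
off `p'` and adjacent to `p' a`. By `S_out` one of them is adjacent to `p (a - 2)` and one to `p (a + 2)`;
not `q (-1)`; so `q 1` is adjacent to both, which contradicts `S_two` for `p'`.
(b) `q 1` is not `Free`: otherwise `S_fork` with `u = q 0`, `a = q (-1)`, `b = q 1`.
(c) `N 1` consists of odd numbers (parity). It contains no `j ≥ 3`: let `j` be the largest one,
`p' = sur p 0 j 2 x`, `x 1 = q 0`, `x 2 = q 1` (a line by `S_sub`: `N 0 = {0}` and `N 1 ⊆ {j - 2, j}`). On `p'`
the vertex `q 0` has the position `1` and `p j` the position `3`. `q (-1)` is a side arm at the position `1`,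
`p (j - 1)` a side arm at the position `3` (`One`; `p (j - 2)` is not on `p'`, parity excludes `q 1`, and
`j - 1 ≠ 0` excludes `q 0`), they are not adjacent: contradiction to `S_sa` (`m = 1`). By reversal of `p`
there is no `j ≤ -3`.
(d) `N 1` is not `{-1, 1}`: let `p' = sur p (-1) 1 1 (fun _ => q 1)`, `p' 0 = q 1`. `q 0` and `q 2` are off `p'`
and adjacent to `p' 0`; `q 0` is adjacent to no other vertex of `p'`. By `S_out` `q 2` is adjacent to `p' (-2)`
and `p' 2`: contradiction to `S_two`. -/
def S_ll1 : Prop := ∀ (V : Type) (W : V → V → ℤ) (c : ℝ), Net W c → ∀ p q : ℤ → V, Line W p →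
  Line W q → Dis p q → Free W p (q (-1)) → W (p 0) (q 0) ≠ 0 →
    One W p (q 0) 0 ∧ (One W p (q 1) 1 ∨ One W p (q 1) (-1))

/-- (L2) Proof. Let `j ≥ 2` be minimal with `q j` not `Free`.
(0) `0 ∉ N j`: by `S_out` at `p 0` for `q 0`, `q j` the vertex `q j` would be adjacent to `p (-2)` and `p 2`,
contradiction to `S_two`. Similarly `1 ∉ N j`. Every `k ∈ N j` has the parity of `j`. So `N j` consists of
numbers `≥ 2` or of numbers `≤ -1`.
(R) `N j ≥ 2`, `k = max N j`.
(R-a) `k ≥ j + 2`. Let `p' = sur p 0 k (j + 1) x`, `x l = q (l - 1)` (a line by `S_sub`; `p 1` and `p (k - 2)` are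
removed). Positions: `q l` at `l + 1`, `p k` at `j + 2`. The vertex `u = q (-1)` is `One` at the position `1`. If
`N j = {k}`: the arm `p (k - l)`, `1 ≤ l ≤ k - 2` (down to `p 2`), at the position `j + 2`; the distance is
`j + 1 ≤ k - 1`. If `N j = {k - 2, k}` (so `k ≥ 4`): the arm `p (k - 1 - l)`, `1 ≤ l ≤ k - 3`, at the position
`j + 1` (its first vertex `p (k - 2)` is adjacent to `q j`, `p (k - 1)` is not used); the distance is
`j ≤ k - 2`. Contradiction to `S_sa`.
(R-b) `k ≤ j` (`k = j + 1` is excluded by parity). If `j = 2` then `k = 2`, `N 2 = {2}`; `sur p 0 2 3 x`,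
`x l = q (l - 1)`, is a line, `p 1` is adjacent to its positions `0` and `4`, contradiction to `S_two`. If
`j ≥ 3` and `N j = {k}`: `S_sa` for `p` with the arm `q l`, `1 ≤ l ≤ j - 2`, at `p 1` and `u = q j` at `p k`,
`|k - 1| ≤ j - 1`. If `N j = {k - 2, k}`, `4 ≤ k ≤ j`: `p' = sur p (k - 2) k 1 (fun _ => q j)`, the arm `q l`,
`1 ≤ l ≤ j - 3`, at `p' 1 = p 1` and `u = q (j - 1)` at the position `k - 1`; distance `k - 2 ≤ j - 2`.
(L) `N j ≤ -1`, `k = min N j`, `κ = - k`.
(L-a) `κ ≥ j`. Let `p' = sur p k 1 j x`, `x l = q (j + 1 - l)`; positions: `q j` at `k + 1`, `q 1` at `k + j`,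
`p 1` at `k + j + 1`; `p 0` is removed. `u = q 0` is `One` at the position `k + j`. If `N j = {k}`: the arm
`p (k + l)`, `1 ≤ l ≤ κ - 1` (up to `p (-1)`), at the position `k`; distance `j ≤ κ`. If `N j = {k, k + 2}` (so
`κ ≥ 3`): the arm `p (k + 1 + l)`, `1 ≤ l ≤ κ - 2`, at the position `k + 1`, distance `j - 1 ≤ κ - 1`.
Contradiction to `S_sa`.
(L-b) `κ < j`, so `κ ≤ j - 2` by parity. If `N j = {k}`: `S_sa` for `p` with the arm `q l`, `1 ≤ l ≤ j - 2`, at
`p 1` and `u = q j` at `p k`, distance `κ + 1`. If `N j = {k, k + 2}`: `p' = sur p k (k + 2) 1 (fun _ => q j)`,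
the arm `q l`, `1 ≤ l ≤ j - 3`, at `p 1` and `u = q (j - 1)` at the position `k + 1`, distance `κ`. -/
def S_ll2 : Prop := ∀ (V : Type) (W : V → V → ℤ) (c : ℝ), Net W c → ∀ p q : ℤ → V, Line W p →
  Line W q → Dis p q → Free W p (q (-1)) → One W p (q 0) 0 → One W p (q 1) 1 →
    ∀ s, 2 ≤ s → Free W p (q s)

/-- (L3) Proof. Otherwise, after reversal and translation of `q`, `q (-1)` is `Free` and `q 0` is not; after
translation of `p`, `W (p 0) (q 0) ≠ 0`. By `S_ll1` and reversal of `p` we may assume `One W p (q 0) 0`,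
`One W p (q 1) 1`. By `S_ll2` all `q s`, `s ≥ 2`, are `Free`. Then `S_tri` for the path `k ↦ q (1 + k)` is a
contradiction. (`S_ll1`, `S_ll2`, `S_tri` may be assumed.) -/
def S_all : Prop := ∀ (V : Type) (W : V → V → ℤ) (c : ℝ), Net W c → ∀ p q : ℤ → V, Line W p →
  Line W q → Dis p q → (∃ s, ¬ Free W p (q s)) → ∀ s, ¬ Free W p (q s)

/-- (L4) If all `q s` are attached and `q 0` is attached to `p 0` only, then up to reversals
`N (-1) = {-1}` and `N 1` contains some `j ≥ 3`.
Proof. The elements of `N 1` and `N (-1)` are odd.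
(1) `N 1 ≠ {-1, 1}`: as (d) in `S_ll1`; similarly `N (-1) ≠ {-1, 1}`. So the elements of `N 1` have the same
sign, and those of `N (-1)`.
(2) The signs are different. Otherwise, after reversal of `p`, both are positive; let `j = max N 1`,
`l = max N (-1)`. If `j ≥ 3`: `P = sur p 0 j 2 x`, `x 1 = q 0`, `x 2 = q 1`, is a line, `q 0` has the position
`1`, `p j` the position `3`. If `q (-1)` is adjacent to some `p i`, `i ≥ j` (position `3 + (i - j)`), then
`i = j` by `S_two` for `P`, so `l = j`, and `S_out` for `p` at `j` and `q 1`, `q (-1)` gives a neighbour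
`p (j + 2)` of one of them, contradiction to the maximality. Otherwise `q (-1)` is a side arm of `P` at the
position `1`, `p (j - 1)` is a side arm at the position `3`, they are not adjacent by parity, contradiction
to `S_sa`. The case `l ≥ 3` is the same after reversal of `q`. If `j = l = 1`: `S_out` for `p` at `1`
gives a neighbour `p 3` of `q 1` or `q (-1)`, contradiction.
(3) After reversal of `p`, `N 1` is positive and `N (-1)` negative. `N 1 = {1}`, `N (-1) = {-1}` is
impossible: `sur p (-1) 1 3 x`, `x = q (-1), q 0, q 1`, is a line and `p 0` is adjacent to its positions `-1`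
and `3`, contradiction to `S_two`.
(4) If `j = max N 1 ≥ 3` then `N (-1) = {-1}`: on the line `P` of (2) the vertex `q (-1)` is adjacent to the
position `1` and to the positions in `N (-1) ≤ -1`; apply `S_two`. Take `ε = η = 1`.
(5) Otherwise `N 1 = {1}` and `min N (-1) ≤ -3`. Take `ε = η = -1`. -/
def S_opp : Prop := ∀ (V : Type) (W : V → V → ℤ) (c : ℝ), Net W c → ∀ p q : ℤ → V, Line W p →
  Line W q → Dis p q → (∀ s, ¬ Free W p (q s)) → One W p (q 0) 0 →
    ∃ ε η : ℤ, (ε = 1 ∨ ε = -1) ∧ (η = 1 ∨ η = -1) ∧ (∃ j, 3 ≤ j ∧ W (p (ε * j)) (q η) ≠ 0) ∧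
      One W p (q (-η)) (-ε)

/-- (L5) **If all `q s` are attached then each of them has two neighbours on `p`.**
Proof. By `S_two` it is enough to exclude `One W p (q s) b`; translate to `s = 0`, `b = 0`. By `S_opp` and
reversals we may assume `N (-1) = {-1}` and `j ∈ N 1`, `j ≥ 3`. Apply `S_opp` to `k ↦ p (k - 1)`,
`k ↦ q (k - 1)`, giving `ε'`, `η'`. `η' = 1` would give an element `ε' j' - 1`, `j' ≥ 3`, of `N 0 = {0}`,
impossible. So `η' = -1`, and `One` for `q 0` gives `ε' = -1`, and there is `j' ≥ 3` with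
`- 1 - j' ∈ N (-2)`. Let `m = min N (-2) ≤ -4`. `X = sur p m 0 3 x`, `x 1 = q (-2)`, `x 2 = q (-1)`, `x 3 = q 0`, is
a line (`S_sub`; `m + 2 < 0`). Positions: `q 0` at `m + 3`, `p j` at `m + 4 + j`. `q 1` is off `X` and adjacent
to both, contradiction to `S_two`. (`S_opp` may be assumed.) -/
def S_typ : Prop := ∀ (V : Type) (W : V → V → ℤ) (c : ℝ), Net W c → ∀ p q : ℤ → V, Line W p →
  Line W q → Dis p q → (∀ s, ¬ Free W p (q s)) → ∀ s, ∃ a, Two W p (q s) a

/-- (L6) Proof. Let `Two W p (q s) (a s)`. The line `p' = sur p (a s - 1) (a s + 1) 1 (fun _ => q s)` has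
`p' (a s) = q s` and agrees with `p` elsewhere. `q (s + 1)` and `q (s - 1)` are off `p'` and adjacent to
`p' (a s)`. By `S_out` one is adjacent to `p (a s - 2)`, one to `p (a s + 2)`. If `q (s + 1)` is adjacent to
`p (a s + 2)` then `a (s + 1) = a s + 1` or `a s + 3`, and the second is impossible by `S_two` for `p'`
(positions `a s`, `a s + 4`). Similarly for the three other cases. So `{a (s + 1), a (s - 1)}` is
`{a s + 1, a s - 1}`, hence `a (s + 1) - a s = ε` does not depend on `s`. -/
def S_lad : Prop := ∀ (V : Type) (W : V → V → ℤ) (c : ℝ), Net W c → ∀ p q : ℤ → V, Line W p →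
  Line W q → Dis p q → (∀ s, ∃ a, Two W p (q s) a) →
    ∃ ε a₀ : ℤ, (ε = 1 ∨ ε = -1) ∧ ∀ s, Two W p (q s) (a₀ + ε * s)

/-- (L7) **Connected lines are adjacent.** Proof. Suppose all `q s` are `Free`. Take a chain
`z 0, …, z m` of adjacent vertices from a vertex of `p` to a vertex of `q` with `m` minimal. Then `m ≥ 2`, the
`z k` with `0 < k < m` are off `p` and off `q`, `z k` is not adjacent to `p` for `2 ≤ k < m` and not to `q` for
`0 < k ≤ m - 2`, the `z k` are different and `z k`, `z l` are adjacent only if `|k - l| = 1`. By `S_two` for the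
line `q` there is a largest `b` with `q b` adjacent to `z (m - 1)`. The path `z 1, …, z (m - 1), q b,
q (b + 1), …` satisfies the hypotheses of `S_tri`, contradiction. (`S_two`, `S_tri` may be assumed.) -/
def S_conn : Prop := ∀ (V : Type) (W : V → V → ℤ) (c : ℝ), Net W c → ∀ p q : ℤ → V, Line W p →
  Line W q → Dis p q → Conn W (p 0) (q 0) → ∃ s, ¬ Free W p (q s)

open Classical in
/-- (L8) **Two connected disjoint lines.** Proof. By `S_conn`, `S_all`, `S_typ`, `S_lad` there are `ε`, `a₀`;
put `q' i = q (ε (i - a₀))`, so `q'` is a line with the same range and `Two W p (q' i) i` for all `i`. The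
vertices `p i`, `q' i` of the level `i` are adjacent to `p (i ± 1)`, `q' (i ± 1)`: at least four neighbours, so
by `S_deg` there are no others (in `V`) and the weights of these edges are `± 1`. This gives the first claim
and the case `u = u'` (value `4`). Every `r` with `r k ∈ {p k, q' k}` for all `k` is a line, the other
vertex `u` of level `i` is off `r` and `Two W r u i`; so `S_pos` gives
`W a (p i) * W (p i) b + W a (q' i) * W (q' i) b = 0` for all `a` of level `i - 1`, `b` of level `i + 1` (all
factors are `± 1`). This is the claim for `u = a`, `u' = b`. Multiplying by `W a (p i) * W (q' i) b` we get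
`W (p i) b * W (q' i) b = - W a (p i) * W a (q' i)` for all such `a`, `b`; the sum over the two `a` and the two
`b` is the claim for `p i`, `q' i`. For other `u ≠ u'` there is no common neighbour (for `u'` not on `p` or
`q` because of the first claim). -/
def S_tor : Prop := ∀ (V : Type) (W : V → V → ℤ) (c : ℝ), Net W c → ∀ p q : ℤ → V, Line W p →
  Line W q → Dis p q → Conn W (p 0) (q 0) →
    (∀ u v, u ∈ Set.range p ∪ Set.range q → W u v ≠ 0 → v ∈ Set.range p ∪ Set.range q) ∧
    ∀ u, u ∈ Set.range p ∪ Set.range q → ∀ (u' : V) (S : Finset V), (∀ v, W u v ≠ 0 → v ∈ S) →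
      ∑ v ∈ S, W u v * W u' v = if u = u' then 4 else 0

end Pool.Agent.Q181.BD
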