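import Pool.Agent.Q181.BD.Stm2

set_option autoImplicit false

/-!
# Statements, part 3: matrices over the group ring of a torsion-free abelian group

`G` is a torsion-free abelian group, `A` a square matrix over `MonoidAlgebra ℤ G`. The net of `A`
(`wz A`) lives on the vertices `Vx G κ κ` of `Pool/Agent/TH57/Thr/Defs.lean` (rows `Sum.inl (g, i)`, columns
`Sum.inr (g, j)`), with the translations `mv g` of `Struct.lean`.
-/

namespace Pool.Agent.Q181.BD

open TH57.Thr

section defs

variable {G : Type} [Group G] {ι κ : Type}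

/-- the weights of `A` as integers (`TH57.Thr.wt` gives real numbers) -/
noncomputable def wz (A : Matrix ι κ (MonoidAlgebra ℤ G)) : Vx G ι κ → Vx G ι κ → ℤ
  | Sum.inl p, Sum.inr q => (A p.2 q.2).coeff (p.1⁻¹ * q.1)
  | Sum.inr q, Sum.inl p => (A p.2 q.2).coeff (p.1⁻¹ * q.1)
  | Sum.inl _, Sum.inl _ => 0
  | Sum.inr _, Sum.inr _ => 0

theorem wz_cast (A : Matrix ι κ (MonoidAlgebra ℤ G)) (u v : Vx G ι κ) :
    ((wz A u v : ℤ) : ℝ) = wt A u v := by
  rcases u with p | q <;> rcases v with p' | q' <;> simp [wz, wt]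

theorem wz_symm (A : Matrix ι κ (MonoidAlgebra ℤ G)) (u v : Vx G ι κ) :
    wz A u v = wz A v u := by
  rcases u with p | q <;> rcases v with p' | q' <;> rfl

theorem wz_mv (A : Matrix ι κ (MonoidAlgebra ℤ G)) (g : G) (u v : Vx G ι κ) :
    wz A (mv g u) (mv g v) = wz A u v := by
  have := wt_mv A g u v
  rw [← wz_cast, ← wz_cast] at this
  exact_mod_cast this

/-- `A` cannot be decomposed into two blocks by permutations of the rows and of the columns -/
def Irr {R : Type} [Zero R] [Fintype κ] (A : Matrix κ κ R) : Prop :=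
  ∀ I J : Finset κ, (∀ i j, A i j ≠ 0 → (i ∈ I ↔ j ∈ J)) →
    (I = ∅ ∧ J = ∅) ∨ (I = Finset.univ ∧ J = Finset.univ)

end defs

section comm

variable {G : Type} [CommGroup G] {κ : Type} [Fintype κ] [DecidableEq κ]

/-- the involution `g ↦ g⁻¹` of the group ring -/
noncomputable def brr (G : Type) [CommGroup G] : MonoidAlgebra ℤ G →+* MonoidAlgebra ℤ G :=
  MonoidAlgebra.mapDomainRingHom ℤ (invMonoidHom : G →* G)

/-- a nonzero term of the expansion of the determinant of `A` -/
structure Term (A : Matrix κ κ (MonoidAlgebra ℤ G)) where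
  /-- the permutation -/
  σ : Equiv.Perm κ
  /-- the exponents -/
  e : κ → G
  ne : ∀ i, (A i (σ i)).coeff (e i) ≠ 0

variable {A : Matrix κ κ (MonoidAlgebra ℤ G)}

/-- the exponent of a term -/
noncomputable def Term.val (t : Term A) : G := ∏ i, t.e i

/-- the permutation comparing two terms -/
def cp2 (t t' : Term A) : Equiv.Perm κ := t'.σ⁻¹ * t.σ

open Classical in
/-- the drift along the cycle of `i` -/
noncomputable def dr (t t' : Term A) (i : κ) : G :=
  ∏ j ∈ Finset.univ.filter (fun j => (cp2 t t').SameCycle i j), t.e j * (t'.e j)⁻¹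

/-- the vertices with an index in the cycle of `i` -/
def Cyc (t t' : Term A) (i : κ) : Vx G κ κ → Prop
  | Sum.inl x => (cp2 t t').SameCycle i x.2
  | Sum.inr x => (cp2 t t').SameCycle i (t.σ⁻¹ x.2)

/-- a product of binomials (a factor may be a monomial or `0`) -/
def Bin (f : MonoidAlgebra ℤ G) : Prop :=
  ∃ s : Multiset ((G × ℤ) × (G × ℤ)), f = (s.map fun x =>
    MonoidAlgebra.single x.1.1 x.1.2 + MonoidAlgebra.single x.2.1 x.2.2).prod

end comm

/-- (A1) Proof: `quad_bound` for `max c 1`, and `wz_cast`. -/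
def S_net : Prop := ∀ (G : Type) [Group G] (ι κ : Type) [Fintype ι] [Fintype κ] [DecidableEq ι]
  [DecidableEq κ] (A : Matrix ι κ (MonoidAlgebra ℤ G)) (c : ℝ), 0 ≤ c → c < 3 / Real.sqrt 2 →
    NormLE A c → Net (wz A) (max c 1)

/-- (A2) **Periodic paths contain lines.** Proof. Consider the graph on `ℤ` with `a`, `b` adjacent if
`W (z a) (z b) ≠ 0`. It is connected, locally finite and invariant under `a ↦ a + 2 L`. As it is infinite,
there are geodesics of every length; translate their middle points into `[0, 2 L)`: for every `N` there is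
`g N : ℤ → ℤ` with `0 ≤ g N 0 < 2 L` and `dist (g N i) (g N j) = |i - j|` for `|i|, |j| ≤ N`. For
`N ≥ |i|` the value `g N i` is in the ball of radius `|i|` around `[0, 2 L)`, a finite set. Let `U` be the
ultrafilter `Filter.hyperfilter ℕ`; `g N i` is constant for `U`-almost all `N`, equal to `g i`
(`Ultrafilter.eventually_exists_mem_iff` or similar). Then `dist (g i) (g j) = |i - j|` for all `i`, `j`, and
`p = z ∘ g` is a line (`W u u = 0`; adjacent means distance one). -/
def S_geo : Prop := ∀ (V : Type) (W : V → V → ℤ), (∀ u v, W u v = W v u) → (∀ u, W u u = 0) →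
  (∀ u, {v | W u v ≠ 0}.Finite) → ∀ (T : V → V), (∀ u v, W (T u) (T v) = W u v) →
    ∀ (z : ℤ → V) (L : ℕ), 1 ≤ L → Function.Injective z → (∀ j, W (z j) (z (j + 1)) ≠ 0) →
      (∀ j, T (z j) = z (j + 2 * L)) → ∃ p : ℤ → V, Line W p ∧ ∀ i, ∃ j, p i = z j

/-- (A3) **Orbits.** Proof. Let `π = cp2 t t'` and `φ (g, k) = (g * t.e k * (t'.e (π k))⁻¹, π k)`, a
permutation of `G × κ` which commutes with left multiplication. If `L` is the length of the cycle of `i`
then `φ ^ L (g, i) = (g * dr t t' i, i)` (the drift is the product over the cycle, reindex the second factor by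
`π`). Put `z (2 n) = Sum.inl (φ ^ n (1, i))` and `z (2 n + 1) = Sum.inr (g * t.e k, t.σ k)` if
`φ ^ n (1, i) = (g, k)`. `z (2 n)`, `z (2 n + 1)` are adjacent by `t.ne`, `z (2 n + 1)`, `z (2 n + 2)` by
`t'.ne` (`t'.σ (π k) = t.σ k`). If `mv g (z j) = z l` then `j`, `l` have the same parity, for even ones
`φ ^ m (g, i) = φ ^ n (1, i)`, so `φ ^ (n - m) (1, i) = (g, i)`, `L` divides `n - m` and `g` is a power of the
drift (odd ones: `Sum.inr` of a bijective image of `φ ^ n (1, i)`). For `g = 1` the drift has infinite order,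
so `z` is injective. -/
def S_orb : Prop := ∀ (G : Type) [CommGroup G], (∀ g : G, ∀ k : ℕ, 0 < k → g ^ k = 1 → g = 1) →
  ∀ (κ : Type) [Fintype κ] [DecidableEq κ] (A : Matrix κ κ (MonoidAlgebra ℤ G)) (t t' : Term A)
    (i : κ), dr t t' i ≠ 1 → ∃ (z : ℤ → Vx G κ κ) (L : ℕ), 1 ≤ L ∧ Function.Injective z ∧
      (∀ j, wz A (z j) (z (j + 1)) ≠ 0) ∧ (∀ j, mv (dr t t' i) (z j) = z (j + 2 * L)) ∧
      (∀ j, Cyc t t' i (z j)) ∧ (∀ g j l, mv g (z j) = z l → g ∈ Subgroup.zpowers (dr t t' i))

/-- (A4) **From two disjoint connected periodic paths to `A A^* = 4`.** Proof. By `S_geo` (finite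
neighbourhoods: finite supports, or `S_deg`) there are lines `p`, `q` inside `z`, `z'`; they are disjoint and
`Conn (wz A) (p 0) (q 0)` (walk along `z` and `z'`). By `S_tor` the set `K = range p ∪ range q` is closed under
adjacency. By `Irr A` (`I` the rows `i` with some `Sum.inl (g, i)` in `K`, `J` the same for columns; `K` is
not empty) every row vertex has a translate in `K`, so by `wz_mv` the second claim of `S_tor` holds for
all row vertices `u`, and this is the claim: the coefficient of `A * (Aᵀ.map (brr G))` at `(i, i')` and `g`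
is `∑ v, wz A (Sum.inl (1, i)) v * wz A (Sum.inl (g, i')) v` (up to `g ↔ g⁻¹`).
(`S_geo`, `S_tor`, `S_net`, `S_deg` may be assumed.) -/
def S_four : Prop := ∀ (G : Type) [CommGroup G] (κ : Type) [Fintype κ] [DecidableEq κ]
  (A : Matrix κ κ (MonoidAlgebra ℤ G)) (c : ℝ), Net (wz A) c → Irr A →
    ∀ (z z' : ℤ → Vx G κ κ) (L L' : ℕ) (d d' : G), 1 ≤ L → 1 ≤ L' → Function.Injective z →
    Function.Injective z' → (∀ j, wz A (z j) (z (j + 1)) ≠ 0) →
    (∀ j, wz A (z' j) (z' (j + 1)) ≠ 0) → (∀ j, mv d (z j) = z (j + 2 * L)) →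
    (∀ j, mv d' (z' j) = z' (j + 2 * L')) → (∀ i j, z i ≠ z' j) → Conn (wz A) (z 0) (z' 0) →
      A * (A.transpose.map (brr G)) = 4

/-- (A5) **Dichotomy.** Proof. Suppose `A A^* ≠ 4`. Let `t`, `t'` be terms, `i` an index, `δ = dr t t' i ≠ 1`,
`z` the path of `S_orb`.
(1) If `Conn (z 0) (mv g (z 0))` then `g ∈ zpowers δ`; otherwise `z` and `mv g ∘ z` are disjoint by the last
property in `S_orb`, and `S_four` gives `A A^* = 4`. Conversely `δ` satisfies the hypothesis.
(2) If `i'` is an index in another cycle of `cp2 t t'` with `dr t t' i' ≠ 1` and `z'` its path then, by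
`Irr A`, there is `g` with `Conn (z 0) (mv g (z' 0))` (the set of the indices of the vertices connected to
translates of `z 0`); `z` and `mv g ∘ z'` are disjoint by `Cyc`; `S_four` gives a contradiction. So the
product over the cycles, `t.val * t'.val⁻¹`, is `1` or equal to the drift `δ` of the only cycle with drift
`≠ 1`.
(3) For two pairs of terms with values `≠`, with drifts `δ`, `δ₁`: by `Irr A` the components of `z`, `z₁` are
translates of each other, so by (1), as `G` is abelian, `zpowers δ = zpowers δ₁`, and `δ₁ = δ` or `δ⁻¹` since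
`G` is torsion-free. Take `h = δ` (`h = 1` if all terms have the same value).
(`S_orb`, `S_four`, `S_net` may be assumed.) -/
def S_dich : Prop := ∀ (G : Type) [CommGroup G], (∀ g : G, ∀ k : ℕ, 0 < k → g ^ k = 1 → g = 1) →
  ∀ (κ : Type) [Fintype κ] [DecidableEq κ] (A : Matrix κ κ (MonoidAlgebra ℤ G)) (c : ℝ),
    Net (wz A) c → Irr A → A * (A.transpose.map (brr G)) = 4 ∨
      ∃ h : G, ∀ t t' : Term A, t.val = t'.val ∨ t.val = h * t'.val ∨ t'.val = h * t.val

/-- (A6) Proof. If the coefficient of `det A` at `g` is not zero there is a term with value `g` (expand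
the determinant and the products). If `g₁`, `g₂`, `g₃` are different elements of the support, two of the
quotients of them are `h ^ 2` up to inverse, but they are `h`, `h⁻¹` too, so `h` is `1` or of finite
order. So the support has at most two elements. -/
def S_dettwo : Prop := ∀ (G : Type) [CommGroup G],
  (∀ g : G, ∀ k : ℕ, 0 < k → g ^ k = 1 → g = 1) →
  ∀ (κ : Type) [Fintype κ] [DecidableEq κ] (A : Matrix κ κ (MonoidAlgebra ℤ G)) (h : G),
    (∀ t t' : Term A, t.val = t'.val ∨ t.val = h * t'.val ∨ t'.val = h * t.val) → Bin A.det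

/-- (A7) Proof. `f = det A` satisfies `f * brr f = 4 ^ n`. It is enough to show: `f * brr f = 4 ^ n` implies
`f = ± 2 ^ n g`. Induction on `n`. `n = 0`: the coefficient of `1` in `f * brr f` is the sum of the squares of
the coefficients of `f`, so `f = ± g`. `n + 1`: the ring `MonoidAlgebra (ZMod 2) H`, `H` the subgroup generated
by the support of `f`, has no zero divisors (`H` is a finitely generated torsion-free abelian group,
`AffineMonoid.to_twoUniqueProds`); so `f` or `brr f`, hence `f`, is divisible by `2`. -/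
def S_detfour : Prop := ∀ (G : Type) [CommGroup G],
  (∀ g : G, ∀ k : ℕ, 0 < k → g ^ k = 1 → g = 1) →
  ∀ (κ : Type) [Fintype κ] [DecidableEq κ] (A : Matrix κ κ (MonoidAlgebra ℤ G)),
    A * (A.transpose.map (brr G)) = 4 → Bin A.det

/-- (A8) **Blocks.** Proof. Induction on the cardinality of `κ`. If `A` is not `Irr` take `I`, `J`. If they have
different cardinalities then `det A = 0` (a set of rows is supported in a smaller set of columns), which is
`Bin`. Otherwise a permutation of the columns which maps `I` to `J` makes `A` block diagonal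
(`Matrix.det_fromBlocks_zero₂₁` or `Matrix.twoBlockTriangular_det`), both blocks are submatrices, so they
satisfy `NormLE` (cf. `Pool.Agent.Q181.LR.NormLE_sub` for permutations; zero entries elsewhere), and `Bin` is
multiplicative and contains `± 1`. -/
def S_blk : Prop := ∀ (G : Type) [CommGroup G] (c : ℝ),
  (∀ (κ : Type) [Fintype κ] [DecidableEq κ] (A : Matrix κ κ (MonoidAlgebra ℤ G)),
    NormLE A c → Irr A → Bin A.det) →
  ∀ (κ : Type) [Fintype κ] [DecidableEq κ] (A : Matrix κ κ (MonoidAlgebra ℤ G)),
    NormLE A c → Bin A.det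

/-- integer polynomials as Laurent polynomials -/
noncomputable def lau : Polynomial ℤ →+* MonoidAlgebra ℤ (Multiplicative ℤ) :=
  Polynomial.eval₂RingHom (Int.castRingHom _)
    (MonoidAlgebra.single (Multiplicative.ofAdd (1 : ℤ)) (1 : ℤ))

/-- (A9) **Mahler measures.** Proof. Multiplying by powers of `t` one gets, from the injectivity of `lau`, an
identity `U * X ^ r * P = U' * X ^ s * ∏ (a + b X ^ k)` in `ℤ[X]` with `U`, `U'` dividing powers of `X` (so
`U, U' = ± X ^ m`, of Mahler measure one). The Mahler measure is multiplicative, and that of `a + b X ^ k` is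
`max |a| |b|` for `k ≥ 1` (all its roots have the same absolute value;
`Polynomial.mahlerMeasure_eq_leadingCoeff_mul_prod_roots`), `|a + b|` for `k = 0`. -/
def S_mah : Prop := ∀ (P : Polynomial ℤ) (f : MonoidAlgebra ℤ (Multiplicative ℤ)), P ≠ 0 → Bin f →
  Associated (lau P) f → ∃ N : ℕ, 1 ≤ N ∧
    (P.map (Int.castRingHom ℂ)).mahlerMeasure = N

end Pool.Agent.Q181.BD
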